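import Mathlib
import Pool.Agent.J4H16.AS.Fi1

/-!
# Project UD (uniformly disconnected postcritical sets): definitions and job statements

Goal: for `n ≥ 2`, if the postcritical set of `z ^ n + c` is uniformly disconnected (every point of
it is surrounded at every small scale by an annulus of definite modulus and comparable size in the
complement) then `c` is in the closure of the hyperbolic parameters.
-/

set_option autoImplicit false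
open Set Filter Topology Metric Complex MeasureTheory
open scoped ComplexConjugate

namespace Pool.Agent.J4H16.UD

open Pool.Agent.J4H16 Pool.Agent.W746.LD Pool.Agent.J4H16.AS

/-- Every point of the plane is surrounded at every scale `R ≤ R1` by an annulus of definite
modulus, of size comparable to `R`, disjoint from `S`. -/
def UDA (S : Set ℂ) (ε R1 : ℝ) : Prop := ∀ (a : ℂ) (R : ℝ), 0 < R → R ≤ R1 → ∃ φ : ℂ → ℂ,
  Univ φ 0 1 ∧ φ 0 = a ∧ ball a R ⊆ φ '' ball 0 1 ∧ φ '' ball 0 1 ⊆ ball a (R / ε) ∧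
    ∀ ζ : ℂ, 1 - ε < ‖ζ‖ → ‖ζ‖ < 1 → φ ζ ∉ S

/-- The set has a base of clopen neighbourhoods with free frontiers. -/
def TD (L : Set ℂ) : Prop := ∀ Z ∈ L, ∀ e : ℝ, 0 < e → ∃ D : Set ℂ, IsOpen D ∧ Z ∈ D ∧
  D ⊆ ball Z e ∧ ∀ z ∈ frontier D, z ∉ L

/-- A conformal disc with a free collar. -/
structure CD (φ : ℂ → ℂ) (κ : ℝ) (L : Set ℂ) : Prop where
  u : Univ φ 0 1
  k0 : 0 < κ
  k1 : κ < 1
  free : ∀ ζ : ℂ, κ < ‖ζ‖ → ‖ζ‖ < 1 → φ ζ ∉ L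

/-! ## Pure analysis and topology of the plane -/

/-- ADD (U1). Cauchy's theorem for finitely many conformal discs. Proof: let `χ k` have the inverse
`ψ k`; take smooth radial cutoffs `θ k` on `ball 0 1`, `1` on a neighbourhood of
`closedBall 0 (κ' k)` and supported in `ball 0 1`, and put `F = ∑ k, θ k ∘ ψ k - θ ∘ Φ⁻¹` (extended
by zero). `F` is smooth with compact support and zero near `L`, so `N F` (zero on `L`) is smooth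
with compact support and `0 = ∫ ∂̄(N F) = ∫ N ∂̄F`; and `∫ N ∂̄(θ k ∘ ψ k)` is a constant times the
circle integral of `N (χ k ζ) * deriv (χ k) ζ` (change of variables by `χ k`, polar coordinates;
the circle integrals do not depend on the radius). -/
def S_ADD : Prop := ∀ (L : Set ℂ) (N Φ : ℂ → ℂ) (κ ρ : ℝ) (m : ℕ) (χ : Fin m → ℂ → ℂ)
  (κ' ρ' : Fin m → ℝ), IsClosed L → DifferentiableOn ℂ N Lᶜ → CD Φ κ L → κ < ρ → ρ < 1 →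
  (∀ k, CD (χ k) (κ' k) L ∧ κ' k < ρ' k ∧ ρ' k < 1 ∧ χ k '' ball 0 1 ⊆ Φ '' ball 0 1) →
  (∀ k l, k ≠ l → Disjoint (χ k '' ball 0 1) (χ l '' ball 0 1)) →
  (∀ Z ∈ L, Z ∈ Φ '' ball 0 1 → ∃ k, Z ∈ χ k '' ball 0 1) →
  (∮ ζ in C(0, ρ), N (Φ ζ) * deriv Φ ζ) = ∑ k, ∮ ζ in C(0, ρ' k), N (χ k ζ) * deriv (χ k) ζ

/-- COV (U2). Covers of totally disconnected sets by disjoint small conformal discs.
Proof. (i) By `TD` and compactness `L ∩ closedBall 0 (B + 3e)` is the disjoint union of finitely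
many compact sets of diameter `< e/4`; let `3η` be less than their distances and `e/100`. Then every
connected component `W` of the open set `{z | ∃ p ∈ L, ‖p‖ ≤ B + 3e ∧ ‖z - p‖ < η}` has diameter
`< e`. (ii) For a bounded connected open `W` let `X` be the unbounded component of `Wᶜ` (it contains
the complement of a big ball) and `W^ = Xᶜ`: `W^` is open, connected, bounded (diameter `< e` as
it is contained in every ball that contains `W`), `W^ᶜ` is connected,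
`frontier W^ ⊆ frontier W` (`W^` is connected: if `W^ = O1 ∪ O2` with `W ⊆ O1` then
`X ∪ O2 ⊆ Wᶜ` is connected, since `frontier O2 ⊆ X`). (iii) Two of the sets `W^` are disjoint or
nested (the frontier of each is disjoint from all the components); keep the maximal ones among the
finitely many which meet `L ∩ closedBall 0 B`. (iv) Riemann mapping theorem
`Pool.Agent.W538.JQ` (`S_rmt`: bounded domains with connected complement); the collar is free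
since `L ∩ W^` is compact. -/
def S_COV : Prop := ∀ (L : Set ℂ) (B e : ℝ), IsClosed L → TD L → 0 < e →
  ∃ (m : ℕ) (χ : Fin m → ℂ → ℂ) (κ : Fin m → ℝ), (∀ k, CD (χ k) (κ k) L ∧
    (∀ z ∈ χ k '' ball 0 1, ∀ w ∈ χ k '' ball 0 1, ‖z - w‖ < e) ∧
    (χ k '' ball 0 1 ∩ L).Nonempty) ∧
  (∀ k l, k ≠ l → Disjoint (χ k '' ball 0 1) (χ l '' ball 0 1)) ∧
  ∀ Z ∈ L, ‖Z‖ ≤ B → ∃ k, Z ∈ χ k '' ball 0 1

/-- SUP (U3). Superadditivity of the index. Proof: `S_COV` with `e` so small that a disc which meets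
`L ∩ φ i (ball 0 1)` (so `L ∩ φ i (closedBall 0 (κ i))`, compact) is contained in `φ i (ball 0 1)`,
`i = 0, 1, 2`; then `S_ADD` for `φ0` with all the discs inside, for `φ1` and for `φ2` with theirs;
all indices are nonnegative by the hypothesis. -/
def S_SUP : Prop := ∀ (L : Set ℂ) (N : ℂ → ℂ) (B : ℝ), IsClosed L → TD L →
  DifferentiableOn ℂ N Lᶜ →
  (∀ (φ : ℂ → ℂ) (κ ρ : ℝ), CD φ κ L → κ < ρ → ρ < 1 → φ '' ball 0 1 ⊆ ball 0 B →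
    ∃ ι : ℝ, 0 ≤ ι ∧ (∮ ζ in C(0, ρ), N (φ ζ) * deriv φ ζ) = -(2 * Real.pi * I * ι)) →
  ∀ (φ0 φ1 φ2 : ℂ → ℂ) (κ0 κ1 κ2 ρ0 ρ1 ρ2 i0 i1 i2 : ℝ), CD φ0 κ0 L → CD φ1 κ1 L → CD φ2 κ2 L →
  κ0 < ρ0 → ρ0 < 1 → κ1 < ρ1 → ρ1 < 1 → κ2 < ρ2 → ρ2 < 1 → φ0 '' ball 0 1 ⊆ ball 0 B →
  φ1 '' ball 0 1 ⊆ φ0 '' ball 0 1 → φ2 '' ball 0 1 ⊆ φ0 '' ball 0 1 →
  Disjoint (φ1 '' ball 0 1) (φ2 '' ball 0 1) →
  (∮ ζ in C(0, ρ0), N (φ0 ζ) * deriv φ0 ζ) = -(2 * Real.pi * I * i0) →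
  (∮ ζ in C(0, ρ1), N (φ1 ζ) * deriv φ1 ζ) = -(2 * Real.pi * I * i1) →
  (∮ ζ in C(0, ρ2), N (φ2 ζ) * deriv φ2 ζ) = -(2 * Real.pi * I * i2) → i1 + i2 ≤ i0

/-- CONN2 (U4). Totally disconnected closed sets do not separate domains. Proof: (i) there is no
nonempty bounded open `B1` with `frontier B1 ⊆ L`: `L' = frontier B1` is compact with `TD`; take
`b ∈ B1`, `N = 0` on `B1` and `1/(z - b)` elsewhere, holomorphic on `L'ᶜ`; apply `S_ADD` to `L'`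
with a big round disc `Φ` and the discs of `S_COV` of diameter less than `dist b L'`: the collar of
each is connected and disjoint from `L'`, so `N` is `0` or `1/(z - b)` on it, and the integral is
`0` as `b` is outside the disc; but the integral over the big circle is `2πi`. (ii) If
`V \ L = A ∪ B` (open, disjoint, nonempty), take for `z ∈ V ∩ L` a disc `D` of `S_COV` with
`z ∈ D ⊆ V`; its collar is connected, say in `A`; then `B ∩ D` is empty by (i) (its frontier is in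
`L`). So `V` is the union of the disjoint open sets `A ∪ (discs of type A)` and
`B ∪ (discs of type B)` (`L` has empty interior by `TD`). -/
def S_CONN2 : Prop := ∀ L : Set ℂ, IsClosed L → TD L → ∀ V : Set ℂ, IsOpen V →
  IsPreconnected V → IsPreconnected (V \ L)

/-- SYMD (U5). Odd conformal discs. Proof: (i) `L ∪ -L` has `TD`: for `z ∈ A`, take `D1 ∋ z` for
`A`, small; cover the compact set `frontier D1 ∩ B` by finitely many tiny sets `E k` for `B`, of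
diameter less than its distance to `A`; `D = D1 ∪ ⋃ E k`. (ii) Let `W` be the component containing
`0` of `ball 0 R ∪ {z | ∃ p ∈ (L ∪ -L) ∩ closedBall 0 (R + 3), ‖z - p‖ < η}`; as in COV it is in
`ball 0 (R + 1)` for small `η`; it is symmetric, and so is the filled set `W^`. (iii) Riemann
mapping theorem with `χ 0 = 0`; `ψ (-χ (-ζ))` is an automorphism of the disc with fixed point `0`
and derivative `1`, so it is the identity (Schwarz), and `χ` is odd. -/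
def S_SYMD : Prop := ∀ (L : Set ℂ) (R : ℝ), IsClosed L → TD L → 0 < R →
  ∃ (φ : ℂ → ℂ) (κ : ℝ), CD φ κ L ∧ (∀ ζ ∈ ball (0 : ℂ) 1, φ (-ζ) = - φ ζ) ∧
    ball 0 R ⊆ φ '' ball 0 1 ∧ φ '' ball 0 1 ⊆ ball 0 (R + 1)

/-- LIMU (U6). Limits. Proof: closedness as in PACK. TD: for `Z`, `e` take `φ j` from `UDA` at
`a = σ j Z`, `R = σ j e ε / 2`, and LIMD below (translated); `D = g (ball 0 (1 - ε/2))`. -/
def S_LIMU : Prop := ∀ (U : Ultrafilter ℕ) (σ : ℕ → ℝ) (S : Set ℂ) (ε R1 : ℝ), 0 < ε → ε < 1 →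
  0 < R1 → UDA S ε R1 → (∀ j, 0 < σ j) → Tendsto σ U (𝓝 0) →
    IsClosed (Lim U σ S) ∧ TD (Lim U σ S)

/-- LIMD (U6). Limits of conformal discs. Proof: `φ j (ζ) / σ j` is bounded by `t / ε`; take its
limit `g` (MONT). `|φ j' 0| ≥ t σ j` by Schwarz for the inverse on `ball 0 (t σ j)`. By `KC.cover`
(`φ j` maps `ball ζ r` onto a set containing a ball about `φ j ζ` of radius `c0 r |φ j' ζ|`, and
`|φ j' ζ| ≥ c(ρ) t σ j` for `|ζ| ≤ ρ` by `KC.rad`) `g` is injective, the collar is free, and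
`σ j g ζ ∈ φ j (closedBall 0 ((1 + ρ)/2))` for `|ζ| ≤ ρ` and most `j`. -/
def S_LIMD : Prop := ∀ (U : Ultrafilter ℕ) (σ : ℕ → ℝ) (S : Set ℂ) (ε t : ℝ) (Z : ℂ)
  (φ : ℕ → ℂ → ℂ), 0 < ε → ε < 1 → 0 < t → (∀ j, 0 < σ j) →
  (∀ᶠ j in (U : Filter ℕ), Univ (φ j) 0 1 ∧ φ j 0 = σ j * Z ∧
    ball (σ j * Z) (σ j * t) ⊆ φ j '' ball 0 1 ∧ φ j '' ball 0 1 ⊆ ball (σ j * Z) (σ j * t / ε) ∧
    ∀ ζ : ℂ, 1 - ε < ‖ζ‖ → ‖ζ‖ < 1 → φ j ζ ∉ S) →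
  ∃ g : ℂ → ℂ, Univ g 0 1 ∧ g 0 = Z ∧ ball Z t ⊆ g '' ball 0 1 ∧
    g '' ball 0 1 ⊆ ball Z (t / ε) ∧ (∀ ζ : ℂ, 1 - ε < ‖ζ‖ → ‖ζ‖ < 1 → g ζ ∉ Lim U σ S) ∧
    (∀ ζ ∈ ball (0 : ℂ) 1, Tendsto (fun j => φ j ζ / σ j) (U : Filter ℕ) (𝓝 (g ζ))) ∧
    ∀ ρ : ℝ, 0 < ρ → ρ < 1 → ∀ᶠ j in (U : Filter ℕ), ∀ ζ : ℂ, ‖ζ‖ ≤ ρ →
      ∃ ξ : ℂ, ‖ξ‖ ≤ (1 + ρ) / 2 ∧ φ j ξ = σ j * g ζ

/-- UDP (U7). It is enough to have the annuli about the points of `S`. Proof: for `a` with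
`ball a (R/2) ∩ S = ∅` an affine map; otherwise `p ∈ S`, `‖p - a‖ < R/2`, and a Möbius change of
variables in the disc for `(p, R)` moving `0` to `ψ a`, `|ψ a| ≤ 1/2` (Schwarz). -/
def S_UDP : Prop := ∀ (S : Set ℂ) (ε R1 : ℝ), 0 < ε → ε < 1 → 0 < R1 →
  (∀ a ∈ S, ∀ R : ℝ, 0 < R → R ≤ R1 → ∃ φ : ℂ → ℂ,
    Univ φ 0 1 ∧ φ 0 = a ∧ ball a R ⊆ φ '' ball 0 1 ∧ φ '' ball 0 1 ⊆ ball a (R / ε) ∧
      ∀ ζ : ℂ, 1 - ε < ‖ζ‖ → ‖ζ‖ < 1 → φ ζ ∉ S) →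
  ∃ ε' R1' : ℝ, 0 < ε' ∧ ε' < 1 ∧ 0 < R1' ∧ UDA S ε' R1'

/-- UDC (U8). Uniformly disconnected sets in the sense of David and Semmes (no chain of small
steps). Proof. Let `a ∈ S`, `R` small, `s = θR/16`. Two points of `S` in the same component of
`{infDist z S < 2s}` are joined by a chain in `S` with steps `< 4s + small`, so they are at a
distance `≤ 3R/8` (apply the hypothesis to the chain up to the first index with distance `≥ 3R/8`).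
So for `0 ≤ k ≤ K` and `s k = s (1 + k/K)` the component `W k` containing `a` of
`ball a R ∪ {z | infDist z S < s k}` is in `ball a (3R)`. Let `F k` be the filling of `W k`
(see COV). A point of `S` in `F (k+1)` and not in `F k` is at a distance `≥ s` from `W k`, and
from all points of `S ∩ F k`; so for `K = K(θ)` large there is `k` with
`S ∩ F (k+1) = S ∩ F k` (packing in `ball a (3R)`). Let `Ω = F (k+1)`, `χ : ball 0 1 → Ω` the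
Riemann map with `χ 0 = a`, `ψ` its inverse. Every point of `W k` is joined to `a` by a chain of at
most `M(θ)` balls of radius `s/(2K)` with centres in `W k` (packing), on which `1 - |ψ|` changes by
a bounded factor (Schwarz-Pick, the balls of radius `s/K` are in `Ω`); so `|ψ| ≤ κ(θ) < 1` on
`W k`, and on the bounded components of `(W k)ᶜ` by the maximum principle. All points of `S ∩ Ω`
are in one of these. -/
def S_UDC : Prop := ∀ (S : Set ℂ) (θ d0 : ℝ), IsClosed S → 0 < θ → 0 < d0 →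
  (∀ (k : ℕ) (p : ℕ → ℂ), (∀ i ≤ k, p i ∈ S) → ‖p k - p 0‖ ≤ d0 →
    (∀ i < k, ‖p (i + 1) - p i‖ ≤ θ * ‖p k - p 0‖) → p k = p 0) →
  ∃ ε R1 : ℝ, 0 < ε ∧ ε < 1 ∧ 0 < R1 ∧ ∀ a ∈ S, ∀ R : ℝ, 0 < R → R ≤ R1 → ∃ φ : ℂ → ℂ,
    Univ φ 0 1 ∧ φ 0 = a ∧ ball a R ⊆ φ '' ball 0 1 ∧ φ '' ball 0 1 ⊆ ball a (R / ε) ∧
      ∀ ζ : ℂ, 1 - ε < ‖ζ‖ → ‖ζ‖ < 1 → φ ζ ∉ S

/-! ## Lifts and dynamics: conformal versions of the AS jobs -/

/-- ROTC (U9). As `S_ROT`, for a conformal disc `s * φ`. -/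
def S_ROTC : Prop := ∀ (n : ℕ) (c : ℂ) (s : ℝ) (φ : ℂ → ℂ) (κ0 κ l : ℝ) (m : ℕ) (H : ℂ → ℂ),
  2 ≤ n → 0 < s → Univ φ 0 1 → 0 < κ0 → 0 < l → κ0 < κ * Real.exp (-l) → κ * Real.exp l < 1 →
  (∀ ζ : ℂ, κ0 < ‖ζ‖ → ‖ζ‖ < 1 → s * φ ζ ∉ PC n c) →
  DifferentiableOn ℂ H (strip l) → (∀ w ∈ strip l, orb n c (H w) m = s * φ (κ * exp w)) →
  (∃ h, Lf n c m (fun ζ => s * φ ζ) h ∧ ∀ w ∈ strip l, H w = h (κ * exp w)) ∨
  (∃ k < m, ∀ w ∈ strip l, orb n c (H w) k ≠ 0 ∧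
    orb n c (H (w + 2 * Real.pi * I)) k = exp (2 * Real.pi * I / n) * orb n c (H w) k)

/-- ROT2C (U9). As `S_ROT2`, for a conformal disc `s * φ`. -/
def S_ROT2C : Prop := ∀ (c : ℂ) (s : ℝ) (φ : ℂ → ℂ) (κ0 κ l : ℝ) (m : ℕ) (H : ℂ → ℂ),
  0 < s → Univ φ 0 1 → 0 < κ0 → 0 < l → κ0 < κ * Real.exp (-l) → κ * Real.exp l < 1 →
  (∀ ζ : ℂ, κ0 < ‖ζ‖ → ‖ζ‖ < 1 → s * φ ζ ∉ PC 2 c) →
  DifferentiableOn ℂ H (strip l) → (∀ w ∈ strip l, orb 2 c (H w) m = s * φ (κ * exp w)) →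
  (∃ h, Lf 2 c m (fun ζ => s * φ ζ) h ∧ ∀ w ∈ strip l, H w = h (κ * exp w)) ∨
  ((∀ w ∈ strip l, H (w + 4 * Real.pi * I) = H w ∧ H (w + 2 * Real.pi * I) ≠ H w) ∧
    ∫ θ in (0 : ℝ)..4 * Real.pi, deriv (deriv H) (I * (θ : ℝ)) / deriv H (I * (θ : ℝ)) =
      2 * Real.pi) ∨
  (∃ k < m, ∀ w ∈ strip l, orb 2 c (H w) k ≠ 0 ∧
    orb 2 c (H (w + 4 * Real.pi * I)) k = - orb 2 c (H w) k)

/-- ZACC (U10). The orbit of a good point accumulates at the critical point. Proof: as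
`GP.zero_acc` (`Lim.lean`), with the conformal disc of `UDA` about `w` in place of the round gap
(`KC.rad`, `KC.rad_lip` in the disc in place of `KC.chain'`). -/
def S_ZACC : Prop := ∀ (n : ℕ) (c : ℂ) (r : ℝ) (ν : ℂ → ℂ) (A : ℝ) (x : ℂ) (ε R1 : ℝ),
  Q n c r → Dense (K n c)ᶜ → Inv n c ν A → GP n c ν x → 0 < ε → ε < 1 → 0 < R1 →
  UDA (PC n c) ε R1 → ∀ δ : ℝ, 0 < δ → ∃ k, ‖orb n c x k‖ < δ

/-- ENTRYC (U10). As `S_ENTRY`, for `UDA`. Proof: as `S_ENTRY`, with the disc `φ` of `UDA` at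
`a = z l1`, `R = 2t` in place of the affine one; `φ v ∈ PC` gives `|v| ≤ 1 - ε`, and
`|φ v - a| ≥ t/2` gives `|v| ≥ c(ε)` by the growth theorem (`|φ' 0| ≤ R / ε`). -/
def S_ENTRYC : Prop := ∀ (n : ℕ) (c : ℂ) (r : ℝ) (ν : ℂ → ℂ) (A : ℝ) (x : ℂ) (ε R1 : ℝ),
  Q n c r → Dense (K n c)ᶜ → Inv n c ν A → GP n c ν x → 0 < ε → ε < 1 → 0 < R1 →
  UDA (PC n c) ε R1 →
  ∃ C1 κ ρ0 : ℝ, 0 < C1 ∧ 0 < κ ∧ 0 < ρ0 ∧ ∀ ρ : ℝ, 0 < ρ → ρ ≤ ρ0 →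
    ∃ (l : ℕ) (g : ℂ → ℂ), Br n c l (orb n c x l) (κ * ρ) g ∧ g (orb n c x l) = x ∧
      ‖orb n c x l‖ ≤ C1 * ρ ∧ ∀ i < l, ρ ≤ ‖orb n c x i‖

/-- NCZC (U11). As `S_NCZ`, for `UDA`. -/
def S_NCZC : Prop := ∀ (n : ℕ) (c : ℂ) (r : ℝ) (ν : ℂ → ℂ) (A : ℝ) (x : ℂ) (ε R1 : ℝ),
  Q n c r → Dense (K n c)ᶜ → Inv n c ν A → GP n c ν x → 0 < ε → ε < 1 → 0 < R1 →
  UDA (PC n c) ε R1 →
  ∃ θ : ℝ, 0 < θ ∧ ∀ s0 : ℝ, 0 < s0 → ∃ ρ : ℝ, 0 < ρ ∧ ρ ≤ s0 ∧ ¬ NCz ν x θ ρ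

/-- ATTC (U11). As `S_ATT`, for a lift `h` of a conformal disc `φ`. -/
def S_ATTC : Prop := ∀ (n : ℕ) (c : ℂ) (r : ℝ), Q n c r → ∀ (C1 ε1 : ℝ), 0 < C1 → 0 < ε1 →
  ε1 < 1 → ∃ ε' : ℝ, 0 < ε' ∧ ∀ (s : ℝ) (i : ℕ) (φ h : ℂ → ℂ) (y v : ℂ), 0 < s →
    Univ φ 0 1 → φ 0 = 0 → ball 0 s ⊆ φ '' ball 0 1 → φ '' ball 0 1 ⊆ ball 0 (C1 * s) →
    Lf n c i φ h → ‖y‖ ≤ 1 - ε1 → ‖v‖ ≤ 1 - ε1 → h v = c → s ^ n ≤ ‖h y - c‖ →
      ε' * s ≤ ‖φ v‖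

/-- TRKC (U12). As `S_TRK`, in an open set `V`. -/
def S_TRKC : Prop := ∀ (n : ℕ) (c x : ℂ) (r : ℝ) (ν : ℂ → ℂ) (A : ℝ) (U : Ultrafilter ℕ)
  (σ : ℕ → ℝ), Cx n c x r ν A U σ → ∀ (V : Set ℂ) (m i : ℕ → ℕ) (hh : ℕ → ℂ → ℂ), IsOpen V →
  IsPreconnected (V \ Lim U σ (PC n c)) →
  (∀ᶠ j in (U : Filter ℕ), i j < m j ∧ ∀ (Z : ℂ) (d : ℝ), 0 < d → ball Z d ⊆ V →
    Br n c (i j) (σ j * Z) (σ j * d) (hh j)) →
  ∀ (Z0 : ℂ) (d0 M0 : ℝ) (G0 : ℕ → ℂ → ℂ), Z0 ∈ V → Z0 ∉ Lim U σ (PC n c) →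
  0 < d0 → 0 ≤ M0 → GS n c x U σ Z0 d0 M0 m G0 →
  (∀ᶠ j in (U : Filter ℕ), orb n c (G0 j Z0) (m j - i j) = hh j (σ j * Z0)) →
  ∀ Z ∈ V, Z ∉ Lim U σ (PC n c) → ∃ (d M : ℝ) (G : ℕ → ℂ → ℂ), 0 < d ∧ 0 ≤ M ∧
    GS n c x U σ Z d M m G ∧
      ∀ᶠ j in (U : Filter ℕ), orb n c (G j Z) (m j - i j) = hh j (σ j * Z)

/-- The branch with the value `y` at `φ κ` extends to the whole conformal disc. -/
def FullC (n : ℕ) (c : ℂ) (s : ℝ) (m : ℕ) (φ : ℂ → ℂ) (κ : ℝ) (y : ℂ) : Prop :=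
  ∃ h : ℂ → ℂ, Lf n c m (fun ζ => s * φ ζ) h ∧ h κ = y

/-- NFC (U12). As `S_NF`, for a conformal disc in `V`. Proof: with `h` from `FullC`,
`f^(m-i) (h ζ)` and `hh (s φ ζ)` are lifts of `s φ ζ` by `f^i` on `ball 0 1` which agree at `κ`, so
they agree (identity theorem; `(f^i)'` is nonzero at the values). -/
def S_NFC : Prop := ∀ (n : ℕ) (c : ℂ) (s : ℝ) (V : Set ℂ) (m i : ℕ) (hh : ℂ → ℂ) (φ : ℂ → ℂ)
  (κ : ℝ) (y v : ℂ), 2 ≤ n → 0 < s → IsOpen V → Univ φ 0 1 → 0 < κ → κ < 1 → i < m →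
  (∀ (Z : ℂ) (d : ℝ), 0 < d → ball Z d ⊆ V → Br n c i (s * Z) (s * d) hh) →
  φ '' ball 0 1 ⊆ V → orb n c y (m - i) = hh (s * φ κ) → hh v = c →
  v / s ∈ φ '' ball 0 1 → ¬ FullC n c s m φ κ y

/-- FNCC (U12). As `S_FNC`, for a conformal disc containing `ball 0 R0`. Proof: the branch
`h ∘ φ⁻¹` on `ball 0 (s R0)`, the cone condition at `0` by `KC.rad`, `KC.rad_lip` for the
univalent function `h` between `κ` and `φ⁻¹ 0`; then as FNC. -/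
def S_FNCC : Prop := ∀ (n : ℕ) (c : ℂ) (r : ℝ) (ν : ℂ → ℂ) (A : ℝ) (x : ℂ),
  Q n c r → Dense (K n c)ᶜ → Inv n c ν A → GP n c ν x → ∀ θ : ℝ, 0 < θ →
  ∃ R0 : ℝ, 0 < R0 ∧ ∀ (φ : ℂ → ℂ) (κ B d M : ℝ), Univ φ 0 1 → 0 < κ → κ < 1 →
    ball 0 R0 ⊆ φ '' ball 0 1 → φ '' ball 0 1 ⊆ ball 0 B → 0 < d → 0 ≤ M →
    ∃ s0 : ℝ, 0 < s0 ∧ ∀ (s : ℝ) (m : ℕ) (G : ℂ → ℂ), 0 < s → s ≤ s0 →
      SB n c x s m (φ κ) d M G → FullC n c s m φ κ (G (φ κ)) → NCz ν x θ s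

end Pool.Agent.J4H16.UD
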