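import Mathlib
import Pool.Agent.J4H16.AS.Ci1
import Pool.Agent.J4H16.UD.Defs

/-!
# Lifts of a parametrized free collar
-/

set_option autoImplicit false
open Set Filter Topology Metric Complex MeasureTheory
open scoped ComplexConjugate

namespace Pool.Agent.J4H16.UD

open Pool.Agent.J4H16 Pool.Agent.W746.LD Pool.Agent.J4H16.AS

variable {n : ℕ} {c x : ℂ} {r : ℝ} {ν : ℂ → ℂ} {A : ℝ} {U : Ultrafilter ℕ} {σ : ℕ → ℝ}

/-- A parametrized free collar. -/
structure EE (n : ℕ) (c : ℂ) (U : Ultrafilter ℕ) (σ : ℕ → ℝ) (E : ℂ → ℂ) (l d B : ℝ) :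
    Prop where
  l0 : 0 < l
  d0 : 0 < d
  B0 : 1 ≤ B
  diff : DifferentiableOn ℂ E (strip l)
  per : ∀ w ∈ strip l, E (w + 2 * Real.pi * I) = E w
  ne : ∀ w ∈ strip l, deriv E w ≠ 0
  inj : ∀ w1 ∈ strip l, ∀ w2 ∈ strip l, E w1 = E w2 → exp w1 = exp w2
  b1 : ∀ w ∈ strip l, ‖deriv E w‖ ≤ B
  b2 : ∀ w ∈ strip l, ‖deriv (deriv E) w / deriv E w‖ ≤ B
  free : ∀ᶠ j in (U : Filter ℕ), ∀ w ∈ strip l, ∀ p ∈ PC n c, σ j * d ≤ ‖p - σ j * E w‖

/-- a lift -/
structure EL (n : ℕ) (c : ℂ) (s : ℝ) (m : ℕ) (E : ℂ → ℂ) (l : ℝ) (H : ℂ → ℂ) : Prop where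
  diff : DifferentiableOn ℂ H (strip l)
  eq : ∀ w ∈ strip l, orb n c (H w) m = s * E w

/-- Local branches of a lift. -/
theorem EL.local (LIFT : S_LIFT) (UNIQ : S_UNIQ) (hn : 2 ≤ n) {s : ℝ} {m : ℕ} {E : ℂ → ℂ} {l : ℝ}
    {H : ℂ → ℂ} (hEE : DifferentiableOn ℂ E (strip l)) (hEn : ∀ w ∈ strip l, deriv E w ≠ 0)
    (h : EL n c s m E l H) (hs : 0 < s) {w : ℂ} (hw : w ∈ strip l)
    {d : ℝ} (hd : 0 < d) (hF : ∀ p ∈ PC n c, s * d ≤ ‖p - s * E w‖) :
    ∃ G : ℂ → ℂ, DifferentiableOn ℂ G (ball (E w) d) ∧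
      (∀ W ∈ ball (E w) d, orb n c (G W) m = s * W) ∧ G (E w) = H w ∧
      deriv H w = deriv G (E w) * deriv E w ∧ deriv G (E w) ≠ 0 ∧
      deriv (deriv H) w / deriv H w =
        deriv (deriv G) (E w) / deriv G (E w) * deriv E w + deriv (deriv E) w / deriv E w := by
  have ho := isOpen_strip l
  have hEd : ∀ u ∈ strip l, HasDerivAt E (deriv E u) u := fun u hu =>
    (hEE.differentiableAt (ho.mem_nhds hu)).hasDerivAt
  have hEd2 : ∀ u ∈ strip l, HasDerivAt (deriv E) (deriv (deriv E) u) u := fun u hu =>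
    ((hEE.deriv ho).differentiableAt (ho.mem_nhds hu)).hasDerivAt
  have hfree : ∀ W ∈ ball (E w) d, (s : ℂ) * W ∉ PC n c := by
    intro W hW hp
    have h1 := hF _ hp
    rw [← mul_sub, norm_mul, Complex.norm_real, Real.norm_of_nonneg hs.le] at h1
    have h2 := le_of_mul_le_mul_left h1 hs
    rw [mem_ball, dist_eq_norm] at hW
    linarith
  obtain ⟨G, g1, g2, g3⟩ := LIFT n c m (ball (E w) d) (fun W => s * W) (E w) (H w) hn isOpen_ball
    (convex_ball _ _) (mem_ball_self hd) (differentiableOn_id.const_mul _) hfree (h.eq w hw)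
  have hsb : SB n c (G (E w)) s m (E w) d 0 G := ⟨g1, g3, by simp⟩
  have hne : ∀ W ∈ ball (E w) d, deriv G W ≠ 0 := fun W hW => hsb.deriv_ne hs hW
  obtain ⟨e, he, hsub⟩ : ∃ e : ℝ, 0 < e ∧ ball w e ⊆ strip l ∩ E ⁻¹' ball (E w) d := by
    apply Metric.mem_nhds_iff.mp
    exact inter_mem (ho.mem_nhds hw)
      ((hEd w hw).continuousAt.preimage_mem_nhds (isOpen_ball.mem_nhds (mem_ball_self hd)))
  have huq := UNIQ n c m (ball w e) (fun u => s * E u) H (fun u => G (E u)) w hn isOpen_ball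
    (convex_ball _ _).isPreconnected (mem_ball_self he)
    (fun u hu => hfree _ (hsub hu).2) (h.diff.mono fun u hu => (hsub hu).1)
    (g1.comp (fun u hu => (hEd u (hsub hu).1).differentiableAt.differentiableWithinAt)
      fun u hu => (hsub hu).2)
    (fun u hu => h.eq u (hsub hu).1) (fun u hu => g3 _ (hsub hu).2) g2.symm
  have hD1 : ∀ u ∈ ball w e, deriv H u = deriv G (E u) * deriv E u := by
    intro u hu
    have h1 : H =ᶠ[𝓝 u] fun u => G (E u) := by
      filter_upwards [isOpen_ball.mem_nhds hu] with v hv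
      exact huq v hv
    rw [h1.deriv_eq]
    have h2 : HasDerivAt G (deriv G (E u)) (E u) := hsb.hasDerivAt (hsub hu).2
    exact (h2.comp u (hEd u (hsub hu).1)).deriv
  have hwe := mem_ball_self (x := w) he
  have hEw : E w ∈ ball (E w) d := mem_ball_self hd
  refine ⟨G, g1, g3, g2, hD1 w hwe, hne _ hEw, ?_⟩
  have h3 : deriv H =ᶠ[𝓝 w] fun u => deriv G (E u) * deriv E u := by
    filter_upwards [isOpen_ball.mem_nhds hwe] with v hv
    exact hD1 v hv
  have hG2 : HasDerivAt (deriv G) (deriv (deriv G) (E w)) (E w) :=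
    ((g1.deriv isOpen_ball).differentiableAt (isOpen_ball.mem_nhds hEw)).hasDerivAt
  have h4 : HasDerivAt (fun u => deriv G (E u) * deriv E u)
      (deriv (deriv G) (E w) * deriv E w * deriv E w + deriv G (E w) * deriv (deriv E) w) w :=
    (hG2.comp w (hEd w hw)).mul (hEd2 w hw)
  rw [h3.deriv_eq, h4.deriv, hD1 w hwe]
  have h5 := hne _ hEw
  have h6 := hEn w hw
  field_simp

/-- A sequence of lifts. -/
def LS (n : ℕ) (c x : ℂ) (U : Ultrafilter ℕ) (σ : ℕ → ℝ) (E : ℂ → ℂ) (l M : ℝ) (m : ℕ → ℕ)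
    (H : ℕ → ℂ → ℂ) : Prop :=
  ∀ᶠ j in (U : Filter ℕ), EL n c (σ j) (m j) E l (H j) ∧ ‖H j 0 - x‖ ≤ M * ‖deriv (H j) 0‖

/-- the bound of the logarithmic derivative -/
noncomputable def BB (C0 d B : ℝ) : ℝ := 8 * C0 / d * B + B

theorem BB_pos {C0 d B : ℝ} (hC : 1 ≤ C0) (hd : 0 < d) (hB : 1 ≤ B) : 0 < BB C0 d B := by
  unfold BB
  have : 0 < B := by linarith
  positivity

/-- Bounds for the lifts. -/
theorem EL.bounds {C0 c0 : ℝ} (K : KC C0 c0) (LIFT : S_LIFT) (UNIQ : S_UNIQ) (hn : 2 ≤ n)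
    {s : ℝ} {m : ℕ} {E : ℂ → ℂ} {l d B : ℝ} {H : ℂ → ℂ} (hE : EE n c U σ E l d B)
    (h : EL n c s m E l H)
    (hs : 0 < s) (hf : ∀ w ∈ strip l, ∀ p ∈ PC n c, s * d ≤ ‖p - s * E w‖) {w : ℂ}
    (hw : w ∈ strip l) :
    deriv H w ≠ 0 ∧ ‖deriv (deriv H) w / deriv H w‖ ≤ BB C0 d B := by
  have hC0 := K.one_le
  have hd := hE.d0
  obtain ⟨G, g1, g2, g3, g4, g5, g6⟩ := h.local LIFT UNIQ hn hE.diff hE.ne hs hw hd (hf w hw)
  have hsb : SB n c (G (E w)) s m (E w) d 0 G := ⟨g1, g2, by simp⟩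
  refine ⟨by rw [g4]; exact mul_ne_zero g5 (hE.ne w hw), ?_⟩
  rw [g6]
  unfold BB
  refine (norm_add_le _ _).trans ?_
  have h1 := KC.logd K hd (hsb.univ hs)
  have h2 := hE.b1 w hw
  have h3 := hE.b2 w hw
  rw [norm_mul]
  gcongr

/-- Local branches of a sequence of lifts are good. -/
theorem LS.good {C0 c0 : ℝ} (K : KC C0 c0) (LIFT : S_LIFT) (UNIQ : S_UNIQ)
    (C : Cx n c x r ν A U σ) {E : ℂ → ℂ} {l d B M : ℝ} {m : ℕ → ℕ} {H : ℕ → ℂ → ℂ}
    (hE : EE n c U σ E l d B) (hM : 0 ≤ M) (h : LS n c x U σ E l M m H) {w : ℂ}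
    (hw : w ∈ strip l) :
    ∃ (M' : ℝ) (G : ℕ → ℂ → ℂ), 0 ≤ M' ∧ GS n c x U σ (E w) d M' m G ∧
      ∀ᶠ j in (U : Filter ℕ), G j (E w) = H j w ∧
        deriv (H j) w = deriv (G j) (E w) * deriv E w ∧
        deriv (deriv (H j)) w / deriv (H j) w =
          deriv (deriv (G j)) (E w) / deriv (G j) (E w) * deriv E w +
            deriv (deriv E) w / deriv E w := by
  have hC0 := K.one_le
  have hd := hE.d0
  have hB0 := hE.B0
  have hBB := BB_pos hC0 hd hB0
  have hl := hE.l0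
  set e : ℝ := Real.exp (BB C0 d B * ‖w‖) with he
  have he0 : 0 < e := Real.exp_pos _
  set M' : ℝ := (e * ‖w‖ + M) * e * B with hM'
  have key : ∀ᶠ j in (U : Filter ℕ), ∃ G : ℂ → ℂ, SB n c x (σ j) (m j) (E w) d M' G ∧
      G (E w) = H j w ∧ deriv (H j) w = deriv G (E w) * deriv E w ∧
        deriv (deriv (H j)) w / deriv (H j) w =
          deriv (deriv G) (E w) / deriv G (E w) * deriv E w + deriv (deriv E) w / deriv E w := by
    filter_upwards [hE.free, h] with j hf hj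
    obtain ⟨hEL, hcone⟩ := hj
    have hs := C.pos j
    obtain ⟨G, g1, g2, g3, g4, g5, g6⟩ := hEL.local LIFT UNIQ C.h.hn hE.diff hE.ne hs hw hd (hf w hw)
    refine ⟨G, ⟨g1, g2, ?_⟩, g3, g4, g6⟩
    have hb := fun u (hu : u ∈ strip l) => hEL.bounds K LIFT UNIQ C.h.hn hE hs hf hu
    have q1 := deriv_growth hEL.diff (fun u hu => (hb u hu).1) (fun u hu => (hb u hu).2) hw
      (zero_mem_strip hl)
    have q2 := fun_growth hBB.le hEL.diff (fun u hu => (hb u hu).1) (fun u hu => (hb u hu).2)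
      (zero_mem_strip hl) hw
    rw [zero_sub, norm_neg] at q1
    rw [sub_zero] at q2
    have q3 : ‖deriv (H j) w‖ ≤ ‖deriv G (E w)‖ * B := by
      rw [g4, norm_mul]
      gcongr
      exact hE.b1 w hw
    rw [g3]
    have q1' : ‖deriv (H j) 0‖ ≤ ‖deriv (H j) w‖ * e := q1
    have q2' : ‖H j w - H j 0‖ ≤ ‖deriv (H j) 0‖ * e * ‖w‖ := q2
    have hB1 : 0 ≤ B := by linarith
    calc ‖H j w - x‖ = ‖(H j w - H j 0) + (H j 0 - x)‖ := by congr 1; ring
      _ ≤ ‖H j w - H j 0‖ + ‖H j 0 - x‖ := norm_add_le _ _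
      _ ≤ ‖deriv (H j) 0‖ * e * ‖w‖ + M * ‖deriv (H j) 0‖ := add_le_add q2' hcone
      _ = (e * ‖w‖ + M) * ‖deriv (H j) 0‖ := by ring
      _ ≤ (e * ‖w‖ + M) * (‖deriv (H j) w‖ * e) := by gcongr
      _ ≤ (e * ‖w‖ + M) * (‖deriv G (E w)‖ * B * e) := by gcongr
      _ = M' * ‖deriv G (E w)‖ := by rw [hM']; ring
  obtain ⟨G, hG⟩ := key.choice
  have hB1 : 0 ≤ B := by linarith
  exact ⟨M', G, by positivity, hG.mono fun j hj => hj.1, hG.mono fun j hj => hj.2⟩

/-- the logarithmic derivative of the limit -/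
noncomputable def Bf (N : ℂ → ℂ) (E : ℂ → ℂ) (w : ℂ) : ℂ :=
  N (E w) * deriv E w + deriv (deriv E) w / deriv E w

theorem EE.shift {E : ℂ → ℂ} {l d B : ℝ} (hE : EE n c U σ E l d B) {w : ℂ} (hw : w ∈ strip l) :
    w + 2 * Real.pi * I ∈ strip l := by
  have := strip_shift hw (2 * Real.pi)
  push_cast at this
  exact this

theorem EE.per1 {E : ℂ → ℂ} {l d B : ℝ} (hE : EE n c U σ E l d B) {w : ℂ} (hw : w ∈ strip l) :
    deriv E (w + 2 * Real.pi * I) = deriv E w := by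
  have h1 : (fun u => E (u + 2 * Real.pi * I)) =ᶠ[𝓝 w] E := by
    filter_upwards [(isOpen_strip l).mem_nhds hw] with u hu
    exact hE.per u hu
  rw [← h1.deriv_eq, deriv_comp_add_const]

theorem EE.per2 {E : ℂ → ℂ} {l d B : ℝ} (hE : EE n c U σ E l d B) {w : ℂ} (hw : w ∈ strip l) :
    deriv (deriv E) (w + 2 * Real.pi * I) = deriv (deriv E) w := by
  have h1 : (fun u => deriv E (u + 2 * Real.pi * I)) =ᶠ[𝓝 w] deriv E := by
    filter_upwards [(isOpen_strip l).mem_nhds hw] with u hu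
    exact hE.per1 hu
  rw [← h1.deriv_eq, deriv_comp_add_const]

theorem EE.Bf_shift {E : ℂ → ℂ} {l d B : ℝ} (hE : EE n c U σ E l d B) (N : ℂ → ℂ) {w : ℂ}
    (hw : w ∈ strip l) : Bf N E (w + 2 * Real.pi * I) = Bf N E w := by
  unfold Bf
  rw [hE.per w hw, hE.per1 hw, hE.per2 hw]

/-- The limit function. -/
structure HL (N : ℂ → ℂ) (E : ℂ → ℂ) (l : ℝ) (H : ℂ → ℂ) : Prop where
  diff : DifferentiableOn ℂ H (strip l)
  zero : H 0 = 0
  one : deriv H 0 = 1
  ne : ∀ w ∈ strip l, deriv H w ≠ 0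
  ode : ∀ w ∈ strip l, deriv (deriv H) w / deriv H w = Bf N E w

theorem HL.unique {N : ℂ → ℂ} {E : ℂ → ℂ} {l : ℝ} {H1 H2 : ℂ → ℂ} (hl : 0 < l)
    (h1 : HL N E l H1) (h2 : HL N E l H2) :
    ∀ w ∈ strip l, H1 w = H2 w ∧ deriv H1 w = deriv H2 w := by
  have ho := isOpen_strip l
  have h0 := zero_mem_strip hl
  have hd : ∀ w ∈ strip l, deriv H1 w = deriv H2 w := by
    intro w hw
    have h3 := log_unique hl (h1.diff.deriv ho) (h2.diff.deriv ho) h1.ne h2.ne
      (fun w hw => by rw [h1.ode w hw, h2.ode w hw]) w hw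
    rw [h1.one, h2.one, mul_one, mul_one] at h3
    exact h3
  intro w hw
  refine ⟨?_, hd w hw⟩
  have h4 : DifferentiableOn ℂ (fun w => H1 w - H2 w) (strip l) := h1.diff.sub h2.diff
  have h5 : (strip l).EqOn (deriv fun w => H1 w - H2 w) 0 := by
    intro w hw
    have e := ((h1.diff.differentiableAt (ho.mem_nhds hw)).hasDerivAt.sub
      (h2.diff.differentiableAt (ho.mem_nhds hw)).hasDerivAt).deriv
    have e' : deriv (fun w => H1 w - H2 w) w = deriv H1 w - deriv H2 w := e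
    rw [e', hd w hw, sub_self]
    rfl
  have h6 := ho.is_const_of_deriv_eq_zero (convex_strip l).isPreconnected h4 h5 hw h0
  simp only [h1.zero, h2.zero, sub_zero] at h6
  exact sub_eq_zero.mp h6

/-- The monodromy. -/
theorem HL.shift {N : ℂ → ℂ} {E : ℂ → ℂ} {l d B : ℝ} {H : ℂ → ℂ} (hE : EE n c U σ E l d B)
    (h : HL N E l H) :
    (∀ w ∈ strip l, deriv H (w + 2 * Real.pi * I) = deriv H (2 * Real.pi * I) * deriv H w) ∧
    (∀ w ∈ strip l, H (w + 2 * Real.pi * I) =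
      deriv H (2 * Real.pi * I) * H w + H (2 * Real.pi * I)) := by
  have hl := hE.l0
  have ho := isOpen_strip l
  have h0 := zero_mem_strip hl
  have hs : ∀ w ∈ strip l, w + 2 * Real.pi * I ∈ strip l := fun w hw => hE.shift hw
  have hT : ∀ w ∈ strip l, HasDerivAt (fun w => H (w + 2 * Real.pi * I))
      (deriv H (w + 2 * Real.pi * I)) w := by
    intro w hw
    exact ((h.diff.differentiableAt (ho.mem_nhds (hs w hw))).hasDerivAt).comp_add_const w _
  have hT2 : ∀ w ∈ strip l, HasDerivAt (fun w => deriv H (w + 2 * Real.pi * I))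
      (deriv (deriv H) (w + 2 * Real.pi * I)) w := by
    intro w hw
    exact (((h.diff.deriv ho).differentiableAt (ho.mem_nhds (hs w hw))).hasDerivAt).comp_add_const
      w _
  have hder : ∀ w ∈ strip l, deriv H (w + 2 * Real.pi * I) = deriv H (2 * Real.pi * I) * deriv H w := by
    intro w hw
    have h3 := log_unique (f := fun w => deriv H (w + 2 * Real.pi * I)) (g := deriv H) hl
      (fun w hw => (hT2 w hw).differentiableAt.differentiableWithinAt) (h.diff.deriv ho)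
      (fun w hw => h.ne _ (hs w hw)) h.ne (fun w hw => by
        rw [(hT2 w hw).deriv, h.ode _ (hs w hw), h.ode w hw, hE.Bf_shift N hw]) w hw
    simp only [zero_add] at h3
    rw [h.one, mul_one] at h3
    rw [h3, mul_comm]
  refine ⟨hder, ?_⟩
  intro w hw
  have hd2 : ∀ w ∈ strip l, HasDerivAt (fun w => H (w + 2 * Real.pi * I) -
      deriv H (2 * Real.pi * I) * H w) 0 w := by
    intro w hw
    have e := (hT w hw).sub ((h.diff.differentiableAt (ho.mem_nhds hw)).hasDerivAt.const_mul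
      (deriv H (2 * Real.pi * I)))
    rw [hder w hw, sub_self] at e
    exact e
  have h6 := ho.is_const_of_deriv_eq_zero (convex_strip l).isPreconnected
    (fun w hw => (hd2 w hw).differentiableAt.differentiableWithinAt)
    (fun w hw => (hd2 w hw).deriv) hw h0
  simp only [zero_add, h.zero, mul_zero, sub_zero] at h6
  rw [← h6]
  ring

/-- Limits of lifts. -/
structure HT (n : ℕ) (c x : ℂ) (U : Ultrafilter ℕ) (σ : ℕ → ℝ) (N : ℂ → ℂ) (E : ℂ → ℂ)
    (l M : ℝ) (m : ℕ → ℕ) (H : ℕ → ℂ → ℂ) (F : ℂ → ℂ) : Prop where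
  ls : LS n c x U σ E l M m H
  hl : HL N E l F
  t0 : ∀ w ∈ strip l,
        Tendsto (fun j => (H j w - H j 0) / deriv (H j) 0) (U : Filter ℕ) (𝓝 (F w))
  t1 : ∀ w ∈ strip l,
        Tendsto (fun j => deriv (H j) w / deriv (H j) 0) (U : Filter ℕ) (𝓝 (deriv F w))
  t2 : ∀ w ∈ strip l,
        Tendsto (fun j => deriv (deriv (H j)) w / deriv (H j) w) (U : Filter ℕ) (𝓝 (Bf N E w))

theorem EE.free_pt {E : ℂ → ℂ} {l d B : ℝ} (hE : EE n c U σ E l d B) {w : ℂ} (hw : w ∈ strip l) :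
    E w ∉ Lim U σ (PC n c) :=
  not_mem_Lim.mpr ⟨d, hE.d0, hE.free.mono fun _ hj p hp => hj w hw p hp⟩

/-- Existence of the limit. -/
theorem LS.ht {C0 c0 : ℝ} (K : KC C0 c0) (LIFT : S_LIFT) (UNIQ : S_UNIQ) (MONT : S_MONT)
    (C : Cx n c x r ν A U σ) {N : ℂ → ℂ} (hN : LN n c x U σ N) {E : ℂ → ℂ} {l d B M : ℝ}
    {m : ℕ → ℕ} {H : ℕ → ℂ → ℂ} (hE : EE n c U σ E l d B) (hM : 0 ≤ M)
    (h : LS n c x U σ E l M m H) : ∃ F : ℂ → ℂ, HT n c x U σ N E l M m H F := by
  have hC0 := K.one_le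
  have hd := hE.d0
  have hBB := BB_pos hC0 hd hE.B0
  have hl := hE.l0
  have ho := isOpen_strip l
  have h0 := zero_mem_strip hl
  have hpt : ∀ w ∈ strip l, Tendsto (fun j => deriv (deriv (H j)) w / deriv (H j) w)
      (U : Filter ℕ) (𝓝 (Bf N E w)) := by
    intro w hw
    obtain ⟨M', G, hM', hG, hG2⟩ := h.good K LIFT UNIQ C hE hM hw
    have h1 := hN.lim _ (hE.free_pt hw) d M' m G hd hM' hG
    have h2 := (h1.mul_const (deriv E w)).add_const (deriv (deriv E) w / deriv E w)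
    apply h2.congr'
    filter_upwards [hG2] with j hj
    exact hj.2.2.symm
  have hb : ∀ᶠ j in (U : Filter ℕ), DifferentiableOn ℂ (H j) (strip l) ∧ ∀ u ∈ strip l,
      deriv (H j) u ≠ 0 ∧ ‖deriv (deriv (H j)) u / deriv (H j) u‖ ≤ BB C0 d B := by
    filter_upwards [hE.free, h] with j hf hj
    exact ⟨hj.1.diff, fun u hu => hj.1.bounds K LIFT UNIQ C.h.hn hE (C.pos j) hf hu⟩
  set F : ℕ → ℂ → ℂ := fun j w => (H j w - H j 0) / deriv (H j) 0 with hFd
  obtain ⟨T, hT1, hT2⟩ := MONT U F (strip l) ho (by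
      filter_upwards [hb] with j hj
      exact (hj.1.sub_const _).div_const _) (by
      intro S hS hSc
      obtain ⟨B', hB⟩ := hSc.isBounded.subset_ball 0 |>.imp fun _ h => h
      refine ⟨Real.exp (BB C0 d B * B') * B', ?_⟩
      filter_upwards [hb] with j hj w hw
      have h1 := fun_growth hBB.le hj.1 (fun u hu => (hj.2 u hu).1) (fun u hu => (hj.2 u hu).2)
        h0 (hS hw)
      rw [sub_zero] at h1
      have h2 := norm_pos_iff.mpr (hj.2 0 h0).1
      have h3 := hB hw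
      rw [mem_ball, dist_zero_right] at h3
      simp only [hFd]
      rw [norm_div, div_le_iff₀ h2]
      calc ‖H j w - H j 0‖ ≤ ‖deriv (H j) 0‖ * Real.exp (BB C0 d B * ‖w‖) * ‖w‖ := h1
        _ ≤ ‖deriv (H j) 0‖ * Real.exp (BB C0 d B * B') * B' := by gcongr
        _ = _ := by ring)
  have hFdiff : ∀ᶠ j in (U : Filter ℕ), DifferentiableOn ℂ (F j) (strip l) := by
    filter_upwards [hb] with j hj
    exact (hj.1.sub_const _).div_const _
  have hF1 : TendstoLocallyUniformlyOn (deriv ∘ F) (deriv T) (U : Filter ℕ) (strip l) :=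
    hT2.deriv hFdiff ho
  have hF2 : TendstoLocallyUniformlyOn (deriv ∘ deriv ∘ F) (deriv (deriv T)) (U : Filter ℕ)
      (strip l) := by
    apply TendstoLocallyUniformlyOn.deriv hF1 _ ho
    filter_upwards [hFdiff] with j hj
    exact hj.deriv ho
  have hFder : ∀ j w, deriv (F j) w = deriv (H j) w / deriv (H j) 0 := by
    intro j w
    simp only [hFd]
    rw [deriv_div_const, deriv_sub_const]
  have hFder2 : ∀ j w, deriv (deriv (F j)) w = deriv (deriv (H j)) w / deriv (H j) 0 := by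
    intro j w
    have : deriv (F j) = fun w => deriv (H j) w / deriv (H j) 0 := funext (hFder j)
    rw [this, deriv_div_const]
  have hd1 : ∀ w ∈ strip l, Tendsto (fun j => deriv (H j) w / deriv (H j) 0) (U : Filter ℕ)
      (𝓝 (deriv T w)) := by
    intro w hw
    refine (hF1.tendsto_at hw).congr fun j => ?_
    exact hFder j w
  have hd2 : ∀ w ∈ strip l, Tendsto (fun j => deriv (deriv (H j)) w / deriv (H j) 0)
      (U : Filter ℕ) (𝓝 (deriv (deriv T) w)) := by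
    intro w hw
    refine (hF2.tendsto_at hw).congr fun j => ?_
    exact hFder2 j w
  have hlow : ∀ w ∈ strip l, Real.exp (-(BB C0 d B * ‖w‖)) ≤ ‖deriv T w‖ := by
    intro w hw
    refine ge_of_tendsto (hd1 w hw).norm ?_
    filter_upwards [hb] with j hj
    have h1 := deriv_growth hj.1 (fun u hu => (hj.2 u hu).1) (fun u hu => (hj.2 u hu).2) hw h0
    rw [zero_sub, norm_neg] at h1
    have h2 := norm_pos_iff.mpr (hj.2 0 h0).1
    rw [norm_div, le_div_iff₀ h2, Real.exp_neg, inv_mul_le_iff₀ (Real.exp_pos _)]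
    linarith
  have hTne : ∀ w ∈ strip l, deriv T w ≠ 0 := fun w hw =>
    norm_pos_iff.mp (lt_of_lt_of_le (Real.exp_pos _) (hlow w hw))
  refine ⟨T, h, ⟨hT1, ?_, ?_, hTne, ?_⟩, fun w hw => hT2.tendsto_at hw, hd1, hpt⟩
  · have h1 := hT2.tendsto_at h0
    have h2 : Tendsto (fun j => F j 0) (U : Filter ℕ) (𝓝 0) := by
      have : (fun j => F j 0) = fun _ => (0 : ℂ) := by
        funext j
        simp [hFd]
      rw [this]
      exact tendsto_const_nhds
    exact tendsto_nhds_unique h1 h2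
  · have h1 := hd1 0 h0
    have h2 : Tendsto (fun j => deriv (H j) 0 / deriv (H j) 0) (U : Filter ℕ) (𝓝 1) := by
      apply tendsto_const_nhds.congr'
      filter_upwards [hb] with j hj
      rw [div_self (hj.2 0 h0).1]
    exact tendsto_nhds_unique h1 h2
  · intro w hw
    have h1 := (hd2 w hw).div (hd1 w hw) (hTne w hw)
    refine tendsto_nhds_unique h1 ((hpt w hw).congr' ?_)
    filter_upwards [hb] with j hj
    have h2 := (hj.2 0 h0).1
    have h3 := (hj.2 w hw).1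
    simp only [Pi.div_apply]
    field_simp

end Pool.Agent.J4H16.UD
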