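import Mathlib
import Pool.Agent.J4H16.UD.C1
import Pool.Agent.J4H16.AS.Ci5

/-!
# The circle theorem for free collars: the multiplier of the monodromy is a sign
-/

set_option autoImplicit false
open Set Filter Topology Metric Complex MeasureTheory
open scoped ComplexConjugate

namespace Pool.Agent.J4H16.UD

open Pool.Agent.J4H16 Pool.Agent.W746.LD Pool.Agent.J4H16.AS

variable {n : ℕ} {c x : ℂ} {r : ℝ} {ν : ℂ → ℂ} {A : ℝ} {U : Ultrafilter ℕ} {σ : ℕ → ℝ}
variable {C0 c0 : ℝ} {E : ℂ → ℂ} {l d B M : ℝ} {m : ℕ → ℕ} {N : ℂ → ℂ}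

/-- The tools. -/
structure TC (C0 c0 : ℝ) : Prop where
  K : KC C0 c0
  LIFT : S_LIFT
  UNIQ : S_UNIQ
  MONT : S_MONT
  SM : S_SM
  SYM : S_SYM
  HOPF : S_HOPF
  ROTC : S_ROTC
  ROT2C : S_ROT2C

/-- The parametrization avoids the postcritical set. -/
theorem EE.not_mem {s : ℝ} (hs : 0 < s) (hd : 0 < d)
    (hf : ∀ w ∈ strip l, ∀ p ∈ PC n c, s * d ≤ ‖p - s * E w‖) {w : ℂ}
    (hw : w ∈ strip l) : (s : ℂ) * E w ∉ PC n c := by
  intro hmem
  have h1 := hf w hw _ hmem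
  rw [sub_self, norm_zero] at h1
  have : 0 < s * d := mul_pos hs hd
  linarith

/-- Existence of lifts. -/
theorem exists_LS (T : TC C0 c0) (C : Cx n c x r ν A U σ) (hE : EE n c U σ E l d B) (hM : 0 ≤ M)
    {d' : ℝ} (hd' : 0 < d') {G : ℕ → ℂ → ℂ} (hG : GS n c x U σ (E 0) d' M m G) :
    ∃ H : ℕ → ℂ → ℂ, LS n c x U σ E l (M / ‖deriv E 0‖) m H ∧
      ∀ᶠ j in (U : Filter ℕ), H j 0 = G j (E 0) ∧
        deriv (H j) 0 = deriv (G j) (E 0) * deriv E 0 := by
  have hl := hE.l0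
  have hd := hE.d0
  have m0 := zero_mem_strip hl
  have hE0 : 0 < ‖deriv E 0‖ := norm_pos_iff.mpr (hE.ne 0 m0)
  have key : ∀ᶠ j in (U : Filter ℕ), ∃ H : ℂ → ℂ,
      EL n c (σ j) (m j) E l H ∧ ‖H 0 - x‖ ≤ M / ‖deriv E 0‖ * ‖deriv H 0‖ ∧
        H 0 = G j (E 0) ∧ deriv H 0 = deriv (G j) (E 0) * deriv E 0 := by
    filter_upwards [hE.free, hG] with j hf hg
    have hs := C.pos j
    obtain ⟨H, h1, h2, h3⟩ := T.LIFT n c (m j) (strip l)
      (fun w => σ j * E w) 0 (G j (E 0)) C.h.hn (isOpen_strip _) (convex_strip _)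
      m0 (hE.diff.const_mul _) (fun w hw => EE.not_mem hs hd hf hw) (by
        rw [hg.eq _ (mem_ball_self hd')])
    have hEL : EL n c (σ j) (m j) E l H := ⟨h1, h3⟩
    obtain ⟨G', g1, g2, g3, g4, g5, g6⟩ := hEL.local T.LIFT T.UNIQ C.h.hn hE.diff hE.ne hs
      m0 hd (hf 0 m0)
    have hsb : SB n c (G' (E 0)) (σ j) (m j) (E 0) d 0 G' := ⟨g1, g2, by simp⟩
    have e := hg.uniq_deriv C.h.hn hsb hs hd' hd (by rw [g3, h2])
    refine ⟨H, hEL, ?_, h2, by rw [g4, e]⟩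
    rw [g4, ← e, norm_mul, h2]
    have e2 : M / ‖deriv E 0‖ * (‖deriv (G j) (E 0)‖ * ‖deriv E 0‖) =
        M * ‖deriv (G j) (E 0)‖ := by
      field_simp
    rw [e2]
    exact hg.cone
  obtain ⟨H, hH⟩ := key.choice
  exact ⟨H, hH.mono fun j hj => ⟨hj.1, hj.2.1⟩, hH.mono fun j hj => hj.2.2⟩

theorem HT.ne0 (C : Cx n c x r ν A U σ) (T : TC C0 c0) (hE : EE n c U σ E l d B)
    {H : ℕ → ℂ → ℂ} {F : ℂ → ℂ}
    (h : HT n c x U σ N E l M m H F) {w : ℂ} (hw : w ∈ strip l) :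
    ∀ᶠ j in (U : Filter ℕ), deriv (H j) w ≠ 0 := by
  filter_upwards [hE.free, h.ls] with j hf hj
  exact (hj.1.bounds T.K T.LIFT T.UNIQ C.h.hn hE (C.pos j) hf hw).1

/-- The arguments of the derivatives at two parameters of the same point. -/
theorem HT.ph_eq (T : TC C0 c0) (C : Cx n c x r ν A U σ) (hE : EE n c U σ E l d B)
    (hM : 0 ≤ M) {H : ℕ → ℂ → ℂ} {F : ℂ → ℂ}
    (h : HT n c x U σ N E l M m H F) {w1 w2 : ℂ} (hw1 : w1 ∈ strip l)
    (hw2 : w2 ∈ strip l) (he : E w1 = E w2) (he' : deriv E w1 = deriv E w2) :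
    ph (deriv F w1) = ph (deriv F w2) := by
  have h0 : (0 : ℂ) ∈ strip l := zero_mem_strip hE.l0
  have hdd := hE.d0
  obtain ⟨M1, G1, hM1, hG1, e1⟩ := h.ls.good T.K T.LIFT T.UNIQ C hE hM hw1
  obtain ⟨M2, G2, hM2, hG2, e2⟩ := h.ls.good T.K T.LIFT T.UNIQ C hE hM hw2
  rw [← he, ← he'] at e2
  rw [← he] at hG2
  have q1 := tendsto_ph (h.hl.ne _ hw1) (h.t1 w1 hw1)
  have q2 := tendsto_ph (h.hl.ne _ hw2) (h.t1 w2 hw2)
  have hu : deriv E w1 ≠ 0 := hE.ne w1 hw1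
  have hdiff : Tendsto (fun j => ph (deriv (H j) w1 / deriv (H j) 0) -
      ph (deriv (H j) w2 / deriv (H j) 0)) (U : Filter ℕ) (𝓝 0) := by
    rw [Metric.tendsto_nhds]
    intro ε hε
    obtain ⟨s0, hs0, hN⟩ := near_real T.SM C.h C.hd C.hI C.hx ‖E w1‖ (d := d)
      (M := max M1 M2) (θ := ε / 2) hdd (le_max_of_le_left hM1) (half_pos hε)
    filter_upwards [hG1, hG2, e1, e2, C.ev hs0, h.ne0 C T hE h0] with j a1 a2 b1 b2 hs hne
    have h5 := hN (σ j) _ (m j) (m j) (G1 j) (G2 j) (C.pos j) hs le_rfl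
      (a1.mono le_rfl (le_max_left _ _)) (a2.mono le_rfl (le_max_right _ _))
    rw [dist_zero_right, ph_div, ph_div, ← sub_div, norm_div, norm_ph hne, div_one, b1.2.1, b2.2.1,
      ph_mul, ph_mul (deriv (G2 j) _), ← sub_mul, norm_mul, norm_ph hu, mul_one]
    linarith
  have q3 := q1.sub q2
  have := tendsto_nhds_unique q3 hdiff
  exact sub_eq_zero.mp this

/-- Separation of the values. -/
theorem HT.sep (T : TC C0 c0) (C : Cx n c x r ν A U σ) (hE : EE n c U σ E l d B)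
    (hM : 0 ≤ M) {H : ℕ → ℂ → ℂ} {F : ℂ → ℂ}
    (h : HT n c x U σ N E l M m H F) {w1 w2 : ℂ} (hw1 : w1 ∈ strip l)
    (hw2 : w2 ∈ strip l)
    (hne : E w1 ≠ E w2 ∨ ∀ᶠ j in (U : Filter ℕ), H j w1 ≠ H j w2) : F w1 ≠ F w2 := by
  have h0 : (0 : ℂ) ∈ strip l := zero_mem_strip hE.l0
  have hdd := hE.d0
  have hc0 := T.K.pos
  obtain ⟨M1, G1, hM1, hG1, e1⟩ := h.ls.good T.K T.LIFT T.UNIQ C hE hM hw1
  obtain ⟨d', hd', hd'2, hd'3⟩ : ∃ d' : ℝ, 0 < d' ∧ d' ≤ d ∧
      (E w2 = E w1 ∨ E w2 ∉ ball (E w1) d') := by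
    by_cases he : E w2 = E w1
    · exact ⟨d, hdd, le_rfl, Or.inl he⟩
    · refine ⟨min d ‖E w2 - E w1‖, lt_min hdd (norm_pos_iff.mpr (sub_ne_zero.mpr he)),
        min_le_left _ _, Or.inr ?_⟩
      rw [mem_ball, dist_eq_norm]
      push Not
      exact min_le_right _ _
  set κ : ℝ := c0 * d' / ‖deriv E w1‖ with hκ
  have hu : 0 < ‖deriv E w1‖ := norm_pos_iff.mpr (hE.ne w1 hw1)
  have hκ0 : 0 < κ := by positivity
  have hbd : ∀ᶠ j in (U : Filter ℕ), κ * ‖deriv (H j) w1 / deriv (H j) 0‖ ≤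
      ‖(H j w1 - H j 0) / deriv (H j) 0 - (H j w2 - H j 0) / deriv (H j) 0‖ := by
    have hev : ∀ᶠ j in (U : Filter ℕ), H j w2 ≠ H j w1 := by
      rcases hne with hne | hne
      · filter_upwards [h.ls] with j hj heq
        have a1 := hj.1.eq w1 hw1
        have a2 := hj.1.eq w2 hw2
        rw [← heq, a2] at a1
        have hs : (σ j : ℂ) ≠ 0 := by exact_mod_cast (C.pos j).ne'
        exact hne (mul_left_cancel₀ hs a1).symm
      · filter_upwards [hne] with j hj heq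
        exact hj heq.symm
    filter_upwards [hG1, e1, hev, h.ls, h.ne0 C T hE h0] with j b1 b2 b3 b4 b5
    have b6 : SB n c x (σ j) (m j) (E w1) d' M1 (G1 j) := b1.mono hd'2 le_rfl
    have b7 := b6.sep T.K (C.pos j) hd' (b4.1.eq w2 hw2) hd'3
      (by rw [b2.1]; exact b3)
    rw [b2.1] at b7
    have b8 : (H j w1 - H j 0) / deriv (H j) 0 - (H j w2 - H j 0) / deriv (H j) 0 =
      (H j w1 - H j w2) / deriv (H j) 0 := by ring
    rw [b8, norm_div, norm_div, ← mul_div_assoc]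
    apply div_le_div_of_nonneg_right _ (norm_nonneg _)
    rw [norm_sub_rev]
    refine le_trans (le_of_eq ?_) b7
    rw [b2.2.1, norm_mul, hκ]
    field_simp
  have l1 := ((h.t1 w1 hw1).norm).const_mul κ
  have l2 := ((h.t0 w1 hw1).sub (h.t0 w2 hw2)).norm
  have l3 := le_of_tendsto_of_tendsto l1 l2 hbd
  intro heq
  rw [heq, sub_self, norm_zero] at l3
  have := norm_pos_iff.mpr (h.hl.ne _ hw1)
  nlinarith [mul_pos hκ0 this]

/-- The derivative of the limit is at most one at the parameters of the base point. -/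
theorem norm_le_one (T : TC C0 c0) (C : Cx n c x r ν A U σ) (hN : LN n c x U σ N)
    (hE : EE n c U σ E l d B) (hM : 0 ≤ M) {d' : ℝ} (hd' : 0 < d') {G : ℕ → ℂ → ℂ}
    (hG : GS n c x U σ (E 0) d' M m G) {F : ℂ → ℂ} (hF' : HL N E l F)
    {w : ℂ} (hw : w ∈ strip l) (he : E w = E 0) (he' : deriv E w = deriv E 0) :
    ‖deriv F w‖ ≤ 1 := by
  by_contra hcon
  push Not at hcon
  have hl := hE.l0
  have h0 : (0 : ℂ) ∈ strip l := zero_mem_strip hl
  have hdd := hE.d0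
  have hE0 : 0 < ‖deriv E 0‖ := norm_pos_iff.mpr (hE.ne 0 h0)
  set d1 : ℝ := min d' d with hd1
  have hd10 : 0 < d1 := lt_min hd' hdd
  set θ : ℝ := (‖deriv F w‖ - 1) / 2 with hθ
  have hθ0 : 0 < θ := by rw [hθ]; linarith
  set R : ℝ := (‖F w‖ / ‖deriv F w‖ + 1) * ‖deriv E 0‖ with hR
  have hR0 : 0 < R := by positivity
  set M' : ℝ := max M (R * (1 + θ) / θ) with hM'
  have hM'0 : 0 ≤ M' := hM.trans (le_max_left _ _)
  obtain ⟨s0, hs0, hSM⟩ := T.SM n c r C.h C.hd x ‖E 0‖ d1 M' 1 hd10 one_pos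
  have key : ∀ᶠ j in (U : Filter ℕ), ∃ g, SB n c x (σ j) (m j) (E 0) d1 M' g ∧
      ∀ G', SB n c (g (E 0)) (σ j) (m j) (E 0) d1 R G' →
        ‖deriv G' (E 0)‖ < (1 + θ) * ‖deriv g (E 0)‖ := by
    filter_upwards [hG, C.ev hs0] with j hj hs
    exact no_better (C.pos j) hd10 hR0.le hθ0 (hj.mono (min_le_left _ _) le_rfl) (Bd := 1)
      (fun G hG => (hSM (σ j) (m j) _ G (C.pos j) hs le_rfl hG).le)
  obtain ⟨g, hg⟩ := key.choice
  have hg1 : GS n c x U σ (E 0) d1 M' m g := hg.mono fun j hj => hj.1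
  obtain ⟨H, hH, hH0⟩ := exists_LS T C hE hM'0 hd10 hg1
  obtain ⟨F2, hF2⟩ := hH.ht T.K T.LIFT T.UNIQ T.MONT C hN hE (by positivity)
  have hu := hF2.hl.unique hl hF' w hw
  obtain ⟨M2, G2, hM2, hG2, e2⟩ := hH.good T.K T.LIFT T.UNIQ C hE (by positivity) hw
  rw [he] at hG2 e2
  rw [he'] at e2
  have hFne := norm_pos_iff.mpr (hF'.ne w hw)
  have l0 : Tendsto (fun j => ‖(H j w - H j 0) / deriv (H j) 0‖ / ‖deriv (H j) w / deriv (H j) 0‖)
      (U : Filter ℕ) (𝓝 (‖F w‖ / ‖deriv F w‖)) := by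
    have a1 := (hF2.t0 w hw).norm
    have a2 := (hF2.t1 w hw).norm
    rw [hu.1] at a1
    rw [hu.2] at a2
    exact a1.div a2 hFne.ne'
  have l1 : ∀ᶠ j in (U : Filter ℕ), ‖(H j w - H j 0) / deriv (H j) 0‖ /
      ‖deriv (H j) w / deriv (H j) 0‖ < ‖F w‖ / ‖deriv F w‖ + 1 :=
    l0.eventually (Iio_mem_nhds (by linarith))
  have l2 : ∀ᶠ j in (U : Filter ℕ), ‖deriv (H j) w / deriv (H j) 0‖ ≤ 1 + θ := by
    filter_upwards [hg, hH0, hG2, e2, l1, hF2.ne0 C T hE h0, hF2.ne0 C T hE hw]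
      with j b1 b2 b3 b4 b5 b6 b7
    have hn0 := norm_pos_iff.mpr b6
    have hnw := norm_pos_iff.mpr b7
    have b8 : ‖H j w - H j 0‖ ≤ (‖F w‖ / ‖deriv F w‖ + 1) * ‖deriv (H j) w‖ := by
      rw [norm_div, norm_div, div_div_div_cancel_right₀ hn0.ne', div_lt_iff₀ hnw] at b5
      exact b5.le
    have hsb : SB n c (g j (E 0)) (σ j) (m j) (E 0) d1 R (G2 j) := by
      refine ⟨(b3.mono (min_le_right _ _) le_rfl).diff, (b3.mono (min_le_right _ _) le_rfl).eq, ?_⟩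
      rw [b4.1, ← b2.1]
      refine b8.trans (le_of_eq ?_)
      rw [b4.2.1, norm_mul, hR]
      ring
    have b9 := b1.2 (G2 j) hsb
    rw [norm_div, div_le_iff₀ hn0, b4.2.1, b2.2, norm_mul, norm_mul]
    nlinarith
  have l3 := (hF2.t1 w hw).norm
  rw [hu.2] at l3
  have l4 := le_of_tendsto l3 l2
  rw [hθ] at l4
  linarith

theorem EE.at_two_pi (hE : EE n c U σ E l d B) :
    E (2 * Real.pi * I) = E 0 ∧ deriv E (2 * Real.pi * I) = deriv E 0 ∧
    E (-(2 * Real.pi * I)) = E 0 ∧ deriv E (-(2 * Real.pi * I)) = deriv E 0 := by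
  have m0 := zero_mem_strip hE.l0
  have m1 := neg_two_pi_mem hE.l0
  have a1 := hE.per 0 m0
  have a2 := hE.per1 m0
  have a3 := hE.per _ m1
  have a4 := hE.per1 m1
  rw [zero_add] at a1 a2
  rw [neg_add_cancel] at a3 a4
  exact ⟨a1, a2, a3.symm, a4.symm⟩

/-- The multiplier is a sign. -/
theorem alpha (T : TC C0 c0) (C : Cx n c x r ν A U σ) (hN : LN n c x U σ N)
    (hE : EE n c U σ E l d B) (hM : 0 ≤ M) {d' : ℝ} (hd' : 0 < d') {G : ℕ → ℂ → ℂ}
    (hG : GS n c x U σ (E 0) d' M m G) {M' : ℝ} (hM' : 0 ≤ M') {H : ℕ → ℂ → ℂ} {F : ℂ → ℂ}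
    (h : HT n c x U σ N E l M' m H F) :
    deriv F (2 * Real.pi * I) = 1 ∨ deriv F (2 * Real.pi * I) = -1 := by
  have hl := hE.l0
  have h0 : (0 : ℂ) ∈ strip l := zero_mem_strip hl
  have h1 := two_pi_mem hl
  have h2 := neg_two_pi_mem hl
  obtain ⟨t1, t2, t3, t4⟩ := hE.at_two_pi
  have n1 := norm_le_one T C hN hE hM hd' hG h.hl h1 t1 t2
  have n2 := norm_le_one T C hN hE hM hd' hG h.hl h2 t3 t4
  have e1 := (h.hl.shift hE).1 _ h2
  rw [neg_add_cancel, h.hl.one] at e1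
  have e2 : (1 : ℝ) = ‖deriv F (2 * Real.pi * I)‖ * ‖deriv F (-(2 * Real.pi * I))‖ := by
    rw [← norm_mul, ← e1, norm_one]
  have e3 : ‖deriv F (2 * Real.pi * I)‖ = 1 := by
    apply le_antisymm n1
    nlinarith [norm_nonneg (deriv F (2 * Real.pi * I)), norm_nonneg (deriv F (-(2 * Real.pi * I)))]
  have hne := h.hl.ne _ h1
  have e4 := h.ph_eq T C hE hM' h1 h0 t1 t2
  rw [h.hl.one, ph_one] at e4
  obtain ⟨t, ht⟩ := ph_one_real hne e4
  rw [ht] at e3 ⊢
  rw [Complex.norm_real, Real.norm_eq_abs] at e3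
  rcases eq_or_eq_neg_of_abs_eq e3 with h | h
  · left; rw [h]; norm_num
  · right; rw [h]; norm_num

/-- Integrals of the logarithmic derivatives. -/
theorem HT.integral (T : TC C0 c0) (C : Cx n c x r ν A U σ) (hE : EE n c U σ E l d B)
    {H : ℕ → ℂ → ℂ} {F : ℂ → ℂ}
    (h : HT n c x U σ N E l M m H F) {L : ℝ} (hL : 0 ≤ L) {v : ℂ}
    (hv : ∀ᶠ j in (U : Filter ℕ),
      ∫ θ in (0 : ℝ)..L, deriv (deriv (H j)) (I * (θ : ℝ)) / deriv (H j) (I * (θ : ℝ)) = v) :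
    ∫ θ in (0 : ℝ)..L, Bf N E (I * (θ : ℝ)) = v := by
  have hl := hE.l0
  have ho := isOpen_strip l
  have hC0 := T.K.one_le
  have hb : ∀ᶠ j in (U : Filter ℕ), DifferentiableOn ℂ (H j) (strip l) ∧
      ∀ u ∈ strip l,
      deriv (H j) u ≠ 0 ∧ ‖deriv (deriv (H j)) u / deriv (H j) u‖ ≤ BB C0 d B := by
    filter_upwards [hE.free, h.ls] with j hf hj
    exact ⟨hj.1.diff, fun u hu => hj.1.bounds T.K T.LIFT T.UNIQ C.h.hn hE (C.pos j) hf hu⟩
  have hdq : ∀ᶠ j in (U : Filter ℕ), DifferentiableOn ℂ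
      (fun w => deriv (deriv (H j)) w / deriv (H j) w) (strip l) := by
    filter_upwards [hb] with j hj
    exact ((hj.1.deriv ho).deriv ho).div (hj.1.deriv ho) fun u hu => (hj.2 u hu).1
  obtain ⟨g, hg1, hg2⟩ := T.MONT U (fun j w => deriv (deriv (H j)) w / deriv (H j) w)
    (strip l) ho hdq (by
      intro S hS hSc
      refine ⟨BB C0 d B, ?_⟩
      filter_upwards [hb] with j hj w hw
      exact (hj.2 w (hS hw)).2)
  have hgB : ∀ w ∈ strip l, Bf N E w = g w := fun w hw =>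
    tendsto_nhds_unique (h.t2 w hw) (hg2.tendsto_at hw)
  set γ : ℝ → ℂ := fun θ => I * (θ : ℝ) with hγ
  have hγc : Continuous γ := by fun_prop
  have hγm : ∀ θ, γ θ ∈ strip l := fun θ => im_mem_strip hl θ
  set S : Set ℂ := γ '' Icc 0 L with hS
  have hSc : IsCompact S := isCompact_Icc.image hγc
  have hSs : S ⊆ strip l := by
    rintro _ ⟨θ, -, rfl⟩
    exact hγm θ
  have hunif := (tendstoLocallyUniformlyOn_iff_forall_isCompact ho).mp hg2 S hSs hSc
  rw [Metric.tendstoUniformlyOn_iff] at hunif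
  have hgi : ∀ f : ℂ → ℂ, DifferentiableOn ℂ f (strip l) →
      IntervalIntegrable (fun θ : ℝ => f (γ θ)) volume 0 L := by
    intro f hf
    apply Continuous.intervalIntegrable
    exact hf.continuousOn.comp_continuous hγc hγm
  have e0 : ∫ θ in (0 : ℝ)..L, Bf N E (I * (θ : ℝ)) = ∫ θ in (0 : ℝ)..L, g (γ θ) :=
    intervalIntegral.integral_congr fun θ _ => hgB _ (hγm θ)
  rw [e0]
  apply eq_of_forall_dist_le
  intro ε hε
  obtain ⟨j, j1, j2, j3⟩ := (hv.and (hdq.and (hunif (ε / (L + 1)) (by positivity)))).exists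
  rw [dist_eq_norm, ← j1]
  have e1 : (∫ θ in (0 : ℝ)..L, g (γ θ)) -
      ∫ θ in (0 : ℝ)..L, deriv (deriv (H j)) (I * (θ : ℝ)) / deriv (H j) (I * (θ : ℝ)) =
      ∫ θ in (0 : ℝ)..L, (g (γ θ) -
        deriv (deriv (H j)) (I * (θ : ℝ)) / deriv (H j) (I * (θ : ℝ))) :=
    (intervalIntegral.integral_sub (hgi g hg1) (hgi _ j2)).symm
  rw [e1]
  have e2 := intervalIntegral.norm_integral_le_of_norm_le_const (a := 0) (b := L)
    (C := ε / (L + 1)) (f := fun θ : ℝ => g (γ θ) -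
        deriv (deriv (H j)) (I * (θ : ℝ)) / deriv (H j) (I * (θ : ℝ))) (by
      intro θ hθ
      rw [uIoc_of_le hL] at hθ
      have := j3 (γ θ) ⟨θ, Ioc_subset_Icc_self hθ, rfl⟩
      rw [dist_eq_norm] at this
      exact this.le)
  refine e2.trans ?_
  rw [sub_zero, abs_of_nonneg hL, div_mul_eq_mul_div, div_le_iff₀ (by positivity)]
  nlinarith

/-- The case of a translation. -/
theorem HT.translation (T : TC C0 c0) (C : Cx n c x r ν A U σ) (hE : EE n c U σ E l d B)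
    (hM : 0 ≤ M) {H : ℕ → ℂ → ℂ} {F : ℂ → ℂ}
    (h : HT n c x U σ N E l M m H F) (hα : deriv F (2 * Real.pi * I) = 1)
    (hb : F (2 * Real.pi * I) ≠ 0) :
    ∫ θ in (0 : ℝ)..2 * Real.pi, Bf N E (I * (θ : ℝ)) = 0 := by
  have hl := hE.l0
  have h1 := T.HOPF F l (F (2 * Real.pi * I)) hl hb h.hl.diff (by
    intro w hw
    rw [(h.hl.shift hE).2 w hw, hα, one_mul]) h.hl.ne (by
    intro θ s hs1 hs2
    apply h.sep T C hE hM (im_mem_strip hl _) (im_mem_strip hl _)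
    left
    intro heq0
    have heq := hE.inj _ (im_mem_strip hl _) _ (im_mem_strip hl _) heq0
    rw [Complex.exp_eq_exp_iff_exists_int] at heq
    obtain ⟨k, hk⟩ := heq
    have h2 : ((θ + s : ℝ) : ℂ) = (θ : ℂ) + k * (2 * Real.pi) := by
      have h3 : I * ((θ + s : ℝ) : ℂ) = I * ((θ : ℂ) + k * (2 * Real.pi)) := by
        rw [hk]
        ring
      exact mul_left_cancel₀ Complex.I_ne_zero h3
    have h4 : θ + s = θ + k * (2 * Real.pi) := by exact_mod_cast h2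
    have h5 : s = k * (2 * Real.pi) := by linarith
    have hpi := Real.pi_pos
    rcases lt_trichotomy k 0 with hk0 | hk0 | hk0
    · have : (k : ℝ) ≤ -1 := by exact_mod_cast Int.le_sub_one_of_lt hk0
      nlinarith
    · rw [hk0] at h5
      simp at h5
      linarith
    · have : (1 : ℝ) ≤ k := by exact_mod_cast hk0
      nlinarith)
  rw [← h1]
  exact intervalIntegral.integral_congr fun θ _ => (h.hl.ode _ (im_mem_strip hl θ)).symm

/-- In degree two the multiplier over a symmetric curve is positive. -/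
theorem HT.centred (T : TC C0 c0) (C : Cx n c x r ν A U σ) (hn2 : n = 2)
    (hE : EE n c U σ E l d B) (hodd : ∀ w ∈ strip l, E (w + Real.pi * I) = - E w)
    (hM : 0 ≤ M) {H : ℕ → ℂ → ℂ} {F : ℂ → ℂ}
    (h : HT n c x U σ N E l M m H F) : deriv F (2 * Real.pi * I) ≠ -1 := by
  subst hn2
  have hl := hE.l0
  have h0 : (0 : ℂ) ∈ strip l := zero_mem_strip hl
  have hdd := hE.d0
  have ho := isOpen_strip l
  have hs : ∀ w ∈ strip l, w + Real.pi * I ∈ strip l := fun w hw => strip_shift hw Real.pi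
  have hodd1 : ∀ w ∈ strip l, deriv E (w + Real.pi * I) = - deriv E w := by
    intro w hw
    have h1 : (fun u => E (u + Real.pi * I)) =ᶠ[𝓝 w] fun u => - E u := by
      filter_upwards [ho.mem_nhds hw] with u hu
      exact hodd u hu
    have h2 := h1.deriv_eq
    rw [deriv_comp_add_const, deriv.fun_neg] at h2
    exact h2
  have hph : ∀ w ∈ strip l, ph (deriv F (w + Real.pi * I)) = ph (deriv F w) := by
    intro w hw
    obtain ⟨M1, G1, hM1, hG1, e1⟩ := h.ls.good T.K T.LIFT T.UNIQ C hE hM hw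
    obtain ⟨M2, G2, hM2, hG2, e2⟩ := h.ls.good T.K T.LIFT T.UNIQ C hE hM (hs w hw)
    rw [hodd w hw] at hG2 e2
    rw [hodd1 w hw] at e2
    have q1 := tendsto_ph (h.hl.ne _ hw) (h.t1 w hw)
    have q2 := tendsto_ph (h.hl.ne _ (hs w hw)) (h.t1 _ (hs w hw))
    have hu : deriv E w ≠ 0 := hE.ne w hw
    have hneg : ph (- deriv E w) = ph (deriv E w) := by
      unfold ph
      rw [map_neg, neg_div_neg_eq]
    have hdiff : Tendsto (fun j => ph (deriv (H j) w / deriv (H j) 0) -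
        ph (deriv (H j) (w + Real.pi * I) / deriv (H j) 0)) (U : Filter ℕ) (𝓝 0) := by
      rw [Metric.tendsto_nhds]
      intro ε hε
      obtain ⟨s0, hs0, hN⟩ := T.SYM c r ν A x C.h C.hd C.hI C.hx ‖E w‖ d
        (max M1 M2) (ε / 2) hdd (le_max_of_le_left hM1) (half_pos hε)
      filter_upwards [hG1, hG2, e1, e2, C.ev hs0, h.ne0 C T hE h0] with j a1 a2 b1 b2 hs hne
      have h5 := hN (σ j) _ (m j) (m j) (G1 j) (G2 j) (C.pos j) hs le_rfl
        (a1.mono le_rfl (le_max_left _ _)) (a2.mono le_rfl (le_max_right _ _))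
      rw [dist_zero_right, ph_div, ph_div, ← sub_div, norm_div, norm_ph hne, div_one, b1.2.1,
        b2.2.1, ph_mul, ph_mul (deriv (G2 j) _), hneg, ← sub_mul, norm_mul, norm_ph hu, mul_one]
      linarith
    have q3 := q1.sub q2
    have := tendsto_nhds_unique q3 hdiff
    exact (sub_eq_zero.mp this).symm
  set β : ℂ → ℂ := fun w => deriv F (w + Real.pi * I) / deriv F w with hβ
  have hFd : DifferentiableOn ℂ (deriv F) (strip l) := h.hl.diff.deriv ho
  have hβd : DifferentiableOn ℂ β (strip l) :=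
    (hFd.comp (by fun_prop) hs).div hFd h.hl.ne
  have hβr : ∀ w ∈ strip l, ∃ t : ℝ, β w = t := by
    intro w hw
    apply ph_one_real
    · exact div_ne_zero (h.hl.ne _ (hs w hw)) (h.hl.ne _ hw)
    · simp only [hβ]
      rw [ph_div, hph w hw, div_self]
      exact norm_pos_iff.mp (by rw [norm_ph (h.hl.ne _ hw)]; exact one_pos)
  have hβc : (strip l).EqOn (deriv β) 0 := by
    intro w hw
    obtain ⟨e, he, hsub⟩ := Metric.isOpen_iff.mp ho w hw
    have h1 : ∀ η : ℝ, 0 < η → ‖deriv β w‖ ≤ 16 * η / e := by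
      intro η hη
      apply small_im hη he (hβd.mono hsub)
      intro W hW
      obtain ⟨t, ht⟩ := hβr W (hsub hW)
      rw [ht, Complex.ofReal_im, abs_zero]
      exact hη.le
    have h2 : ‖deriv β w‖ ≤ 0 := by
      apply le_of_forall_pos_le_add
      intro η hη
      have h3 := h1 (η * e / 16) (by positivity)
      have h4 : 16 * (η * e / 16) / e = η := by field_simp
      rw [h4] at h3
      linarith
    exact norm_le_zero_iff.mp h2
  have hc := ho.is_const_of_deriv_eq_zero (convex_strip _).isPreconnected hβd hβc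
    (hs 0 h0) h0
  obtain ⟨t, ht⟩ := hβr 0 h0
  rw [ht] at hc
  simp only [hβ] at hc ht
  rw [zero_add] at hc ht
  rw [h.hl.one, div_one] at ht
  rw [ht] at hc
  have e1 : (Real.pi * I + Real.pi * I : ℂ) = 2 * Real.pi * I := by ring
  rw [e1] at hc
  have htne : (t : ℂ) ≠ 0 := by
    rw [← ht]
    have := h.hl.ne _ (hs 0 h0)
    rwa [zero_add] at this
  rw [div_eq_iff htne] at hc
  rw [hc]
  intro h7
  have h8 : t * t = -1 := by exact_mod_cast h7
  nlinarith [mul_self_nonneg t]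

end Pool.Agent.J4H16.UD
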