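import Mathlib
import Pool.Agent.J4H16.UD.C2

/-!
# The circle theorem for conformal discs
-/

set_option autoImplicit false
open Set Filter Topology Metric Complex MeasureTheory
open scoped ComplexConjugate

namespace Pool.Agent.J4H16.UD

open Pool.Agent.J4H16 Pool.Agent.W746.LD Pool.Agent.J4H16.AS

variable {n : ℕ} {c x : ℂ} {r : ℝ} {ν : ℂ → ℂ} {A : ℝ} {U : Ultrafilter ℕ} {σ : ℕ → ℝ}
variable {C0 c0 : ℝ} {E φ : ℂ → ℂ} {l d B M κ0 κ : ℝ} {m : ℕ → ℕ} {N : ℂ → ℂ}

/-- A conformal disc whose collar is free at most scales. -/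
structure FD (n : ℕ) (c : ℂ) (U : Ultrafilter ℕ) (σ : ℕ → ℝ) (φ : ℂ → ℂ) (κ : ℝ) : Prop where
  u : Univ φ 0 1
  k0 : 0 < κ
  k1 : κ < 1
  free : ∀ᶠ j in (U : Filter ℕ), ∀ ζ : ℂ, κ < ‖ζ‖ → ‖ζ‖ < 1 → (σ j : ℂ) * φ ζ ∉ PC n c

theorem Univ.scale {s : ℝ} (hs : 0 < s) (h : Univ φ 0 1) : Univ (fun ζ => s * φ ζ) 0 1 := by
  have hs' : (s : ℂ) ≠ 0 := by exact_mod_cast hs.ne'
  exact ⟨h.1.const_mul _, fun u hu v hv huv => h.2 hu hv (mul_left_cancel₀ hs' huv)⟩

theorem norm_kexp (hκ : 0 < κ) (w : ℂ) : ‖(κ : ℂ) * exp w‖ = κ * Real.exp w.re := by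
  rw [norm_mul, Complex.norm_real, Real.norm_of_nonneg hκ.le, Complex.norm_exp]

theorem kexp_mem (hκ : 0 < κ) (hκl : κ * Real.exp l < 1) {w : ℂ} (hw : w ∈ strip l) :
    (κ : ℂ) * exp w ∈ ball (0 : ℂ) 1 := by
  obtain ⟨-, h2⟩ := exp_lt_of_strip hw
  rw [mem_ball, dist_zero_right, norm_kexp hκ]
  calc κ * Real.exp w.re ≤ κ * Real.exp l := by gcongr
    _ < 1 := hκl

/-- A univalent function in exponential coordinates. -/
theorem univ_int {h H : ℂ → ℂ} (hu : Univ h 0 1) (hκ : 0 < κ) (hl : 0 < l)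
    (hκl : κ * Real.exp l < 1) (hH : ∀ w ∈ strip l, H w = h (κ * exp w)) :
    (∀ w ∈ strip l, deriv H w = deriv h (κ * exp w) * (κ * exp w)) ∧
    (∀ w ∈ strip l, deriv (deriv H) w / deriv H w =
      AS.Bf (fun ζ => deriv (deriv h) ζ / deriv h ζ) 0 κ w) ∧
    ∫ θ in (0 : ℝ)..2 * Real.pi, deriv (deriv H) (I * (θ : ℝ)) / deriv H (I * (θ : ℝ)) =
      2 * Real.pi := by
  have hκ1 : κ < 1 := by
    have : 1 ≤ Real.exp l := Real.one_le_exp hl.le
    nlinarith
  have hne : ∀ ζ ∈ ball (0 : ℂ) 1, deriv h ζ ≠ 0 := fun ζ hζ =>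
    Pool.Agent.Helper202.Univ.deriv_ne_zero isOpen_ball hu.1 hu.2 hζ
  set q : ℂ → ℂ := fun ζ => deriv (deriv h) ζ / deriv h ζ with hq
  have hd1 : DifferentiableOn ℂ (deriv h) (ball 0 1) := hu.1.deriv isOpen_ball
  have hd2 : DifferentiableOn ℂ (deriv (deriv h)) (ball 0 1) := hd1.deriv isOpen_ball
  have hqd : DifferentiableOn ℂ q (ball 0 1) := hd2.div hd1 hne
  have hsub : closedBall (0 : ℂ) κ ⊆ ball 0 1 := closedBall_subset_ball hκ1
  have hC : (∮ z in C(0, κ), q z) = 0 := by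
    apply Complex.circleIntegral_eq_zero_of_differentiable_on_off_countable hκ.le
      Set.countable_empty (hqd.continuousOn.mono hsub)
    intro z hz
    exact hqd.differentiableAt (isOpen_ball.mem_nhds (hsub (ball_subset_closedBall hz.1)))
  have hm : ∀ w ∈ strip l, (κ : ℂ) * exp w ∈ ball (0 : ℂ) 1 := fun w hw => kexp_mem hκ hκl hw
  have hE : ∀ w, HasDerivAt (fun w : ℂ => (κ : ℂ) * exp w) (κ * exp w) w := fun w =>
    (Complex.hasDerivAt_exp w).const_mul (κ : ℂ)
  have ho := isOpen_strip l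
  have hD1 : ∀ w ∈ strip l, deriv H w = deriv h (κ * exp w) * (κ * exp w) := by
    intro w hw
    have h1 : H =ᶠ[𝓝 w] fun w => h (κ * exp w) := by
      filter_upwards [ho.mem_nhds hw] with v hv
      exact hH v hv
    rw [h1.deriv_eq]
    have h2 : HasDerivAt h (deriv h (κ * exp w)) (κ * exp w) :=
      (hu.1.differentiableAt (isOpen_ball.mem_nhds (hm w hw))).hasDerivAt
    exact (h2.comp w (hE w)).deriv
  have hD2 : ∀ w ∈ strip l, deriv (deriv H) w / deriv H w = AS.Bf q 0 κ w := by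
    intro w hw
    have h1 : deriv H =ᶠ[𝓝 w] fun w => deriv h (κ * exp w) * (κ * exp w) := by
      filter_upwards [ho.mem_nhds hw] with v hv
      exact hD1 v hv
    have h2 : HasDerivAt (deriv h) (deriv (deriv h) (κ * exp w)) (κ * exp w) :=
      (hd1.differentiableAt (isOpen_ball.mem_nhds (hm w hw))).hasDerivAt
    have h3 := ((h2.comp w (hE w)).mul (hE w)).deriv
    have h4 : deriv (fun w => deriv h (κ * exp w) * (κ * exp w)) w = deriv (deriv h) (κ * exp w) *
      (κ * exp w) * (κ * exp w) + deriv h (κ * exp w) * (κ * exp w) := h3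
    rw [h1.deriv_eq, h4, hD1 w hw]
    have h5 := hne _ (hm w hw)
    have h6 : (κ : ℂ) ≠ 0 := by exact_mod_cast hκ.ne'
    have h7 : exp w ≠ 0 := Complex.exp_ne_zero _
    unfold AS.Bf
    simp only [hq, zero_add]
    field_simp
  refine ⟨hD1, hD2, ?_⟩
  have hsph : sphere (0 : ℂ) κ ⊆ ball 0 1 := sphere_subset_closedBall.trans hsub
  have h1 := AS.circle_int (a := 0) (N := q) hκ (hqd.continuousOn.mono hsph)
  rw [hC] at h1
  have h2 : (∫ θ in (0 : ℝ)..2 * Real.pi, AS.Bf q 0 κ (I * (θ : ℝ))) = 2 * Real.pi := by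
    have h3 := (mul_eq_zero.mp h1.symm).resolve_left Complex.I_ne_zero
    exact sub_eq_zero.mp h3
  rw [← h2]
  exact intervalIntegral.integral_congr fun θ _ => hD2 _ (im_mem_strip hl θ)

/-- The exponential parametrization of the collar. -/
theorem exists_EE (K : KC C0 c0) (hp : ∀ j, 0 < σ j) (h : FD n c U σ φ κ0) (hκ : κ0 < κ)
    (hκ1 : κ < 1) : ∃ l d B : ℝ, 0 < l ∧ κ0 < κ * Real.exp (-l) ∧ κ * Real.exp l < 1 ∧
      EE n c U σ (fun w => φ (κ * exp w)) l d B := by
  have hκ0 : 0 < κ := h.k0.trans hκ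
  have hc0 := K.pos
  set ρm : ℝ := (κ0 + κ) / 2 with hρm
  set ρp : ℝ := (κ + 1) / 2 with hρp
  have m1 : κ0 < ρm := by rw [hρm]; linarith
  have m2 : ρm < κ := by rw [hρm]; linarith
  have m3 : κ < ρp := by rw [hρp]; linarith
  have m4 : ρp < 1 := by rw [hρp]; linarith
  have hρm0 : 0 < ρm := h.k0.trans m1
  set l : ℝ := min (Real.log (κ / ρm)) (Real.log (ρp / κ)) with hl
  have hl0 : 0 < l := lt_min (Real.log_pos (by rw [lt_div_iff₀ hρm0]; linarith))
    (Real.log_pos (by rw [lt_div_iff₀ hκ0]; linarith))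
  have hl1 : κ * Real.exp l ≤ ρp := by
    have h1 : Real.exp l ≤ ρp / κ := by
      calc Real.exp l ≤ Real.exp (Real.log (ρp / κ)) := Real.exp_le_exp.mpr (min_le_right _ _)
        _ = ρp / κ := Real.exp_log (by positivity)
    rw [le_div_iff₀ hκ0] at h1
    linarith
  have hl2 : ρm ≤ κ * Real.exp (-l) := by
    have h1 : Real.exp l ≤ κ / ρm := by
      calc Real.exp l ≤ Real.exp (Real.log (κ / ρm)) := Real.exp_le_exp.mpr (min_le_left _ _)
        _ = κ / ρm := Real.exp_log (by positivity)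
    rw [le_div_iff₀ hρm0] at h1
    rw [Real.exp_neg, ← div_eq_mul_inv, le_div_iff₀ (Real.exp_pos _)]
    linarith
  have hκl : κ * Real.exp l < 1 := lt_of_le_of_lt hl1 m4
  set S : Set ℂ := closedBall 0 ρp \ ball 0 ρm with hS
  have hSc : IsCompact S := (isCompact_closedBall 0 ρp).diff isOpen_ball
  have hSb : S ⊆ ball 0 1 := diff_subset.trans (closedBall_subset_ball m4)
  have hζS : ∀ w ∈ strip l, (κ : ℂ) * exp w ∈ S := by
    intro w hw
    obtain ⟨h1, h2⟩ := exp_lt_of_strip hw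
    refine ⟨?_, ?_⟩
    · rw [mem_closedBall, dist_zero_right, norm_kexp hκ0]
      refine le_trans ?_ hl1
      gcongr
    · rw [mem_ball, dist_zero_right, norm_kexp hκ0]
      push Not
      refine hl2.trans ?_
      gcongr
  have hne : ∀ ζ ∈ ball (0 : ℂ) 1, deriv φ ζ ≠ 0 := fun ζ hζ =>
    Pool.Agent.Helper202.Univ.deriv_ne_zero isOpen_ball h.u.1 h.u.2 hζ
  have hd1 : DifferentiableOn ℂ (deriv φ) (ball 0 1) := h.u.1.deriv isOpen_ball
  have hd2 : DifferentiableOn ℂ (deriv (deriv φ)) (ball 0 1) := hd1.deriv isOpen_ball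
  obtain ⟨B1, hB1⟩ := hSc.exists_bound_of_continuousOn (f := fun ζ => deriv φ ζ * ζ)
    ((hd1.continuousOn.mono hSb).mul continuousOn_id)
  obtain ⟨B2, hB2⟩ := hSc.exists_bound_of_continuousOn
    (f := fun ζ => deriv (deriv φ) ζ / deriv φ ζ * ζ + 1)
    ((((hd2.div hd1 hne).continuousOn.mono hSb).mul continuousOn_id).add continuousOn_const)
  obtain ⟨B3, hB3⟩ := hSc.exists_bound_of_continuousOn
    (f := fun ζ => (deriv φ ζ)⁻¹) ((hd1.continuousOn.mono hSb).inv₀ fun ζ hζ => hne ζ (hSb hζ))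
  set B : ℝ := max 1 (max B1 B2) with hB
  set m0 : ℝ := 1 / max 1 B3 with hm0
  have hm00 : 0 < m0 := by positivity
  have hm01 : ∀ ζ ∈ S, m0 ≤ ‖deriv φ ζ‖ := by
    intro ζ hζ
    have h1 := hB3 ζ hζ
    rw [norm_inv] at h1
    have h2 := norm_pos_iff.mpr (hne ζ (hSb hζ))
    rw [hm0, div_le_iff₀ (by positivity)]
    have h3 : ‖deriv φ ζ‖⁻¹ ≤ max 1 B3 := h1.trans (le_max_right _ _)
    rw [inv_le_iff_one_le_mul₀ h2] at h3
    linarith
  set e1 : ℝ := min (1 - ρp) (ρm - κ0) with he1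
  have he10 : 0 < e1 := lt_min (by linarith) (by linarith)
  obtain ⟨u1, u2, -⟩ := univ_int (H := fun w => φ (κ * exp w)) h.u hκ0 hl0 hκl (fun _ _ => rfl)
  refine ⟨l, c0 * e1 * m0, B, hl0, m1.trans_le hl2, hκl, hl0, by positivity, le_max_left _ _,
    ?_, ?_, ?_, ?_, ?_, ?_, ?_⟩
  · exact h.u.1.comp (by fun_prop) fun w hw => kexp_mem hκ0 hκl hw
  · intro w _
    have : exp (w + 2 * Real.pi * I) = exp w := Complex.exp_periodic w
    simp only [this]
  · intro w hw
    rw [u1 w hw]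
    have h7 : exp w ≠ 0 := Complex.exp_ne_zero _
    have h6 : (κ : ℂ) ≠ 0 := by exact_mod_cast hκ0.ne'
    exact mul_ne_zero (hne _ (kexp_mem hκ0 hκl hw)) (mul_ne_zero h6 h7)
  · intro w1 hw1 w2 hw2 heq
    have h1 := h.u.2 (kexp_mem hκ0 hκl hw1) (kexp_mem hκ0 hκl hw2) heq
    have h6 : (κ : ℂ) ≠ 0 := by exact_mod_cast hκ0.ne'
    exact mul_left_cancel₀ h6 h1
  · intro w hw
    rw [u1 w hw]
    exact (hB1 _ (hζS w hw)).trans ((le_max_left _ _).trans (le_max_right _ _))
  · intro w hw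
    rw [u2 w hw]
    unfold AS.Bf
    simp only [zero_add]
    exact (hB2 _ (hζS w hw)).trans ((le_max_right _ _).trans (le_max_right _ _))
  · filter_upwards [h.free] with j hj w hw p hpp
    by_contra hcon
    push Not at hcon
    have hs := hp j
    have hs' : (σ j : ℂ) ≠ 0 := by exact_mod_cast hs.ne'
    set ζ : ℂ := κ * exp w with hζ
    have hζ1 := hζS w hw
    rw [← hζ] at hζ1
    have hn1 : ‖ζ‖ ≤ ρp := by
      have := hζ1.1
      rwa [mem_closedBall, dist_zero_right] at this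
    have hn2 : ρm ≤ ‖ζ‖ := by
      have := hζ1.2
      rw [mem_ball, dist_zero_right] at this
      push Not at this
      exact this
    have hsub : ball ζ e1 ⊆ ball 0 1 := by
      apply ball_subset_ball'
      rw [dist_zero_right]
      have : e1 ≤ 1 - ρp := min_le_left _ _
      linarith
    have hu' : Univ φ ζ e1 := ⟨h.u.1.mono hsub, h.u.2.mono hsub⟩
    have e2 : ‖p / σ j - φ ζ‖ < c0 * e1 * ‖deriv φ ζ‖ := by
      have e3 : p / σ j - φ ζ = (p - σ j * φ ζ) / σ j := by field_simp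
      rw [e3, norm_div, Complex.norm_real, Real.norm_of_nonneg hs.le, div_lt_iff₀ hs]
      calc ‖p - σ j * φ ζ‖ < σ j * (c0 * e1 * m0) := hcon
        _ ≤ σ j * (c0 * e1 * ‖deriv φ ζ‖) := by
            gcongr
            exact hm01 ζ hζ1
        _ = _ := by ring
    obtain ⟨ξ, hξ, hξ2⟩ := KC.cover K he10 hu' e2
    rw [mem_ball, dist_eq_norm] at hξ
    have hn3 : ‖ξ‖ ≤ ‖ξ - ζ‖ + ‖ζ‖ := by
      have := norm_add_le (ξ - ζ) ζ
      rwa [sub_add_cancel] at this
    have hn4 : ‖ζ‖ ≤ ‖ξ - ζ‖ + ‖ξ‖ := by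
      have := norm_sub_le ξ (ξ - ζ)
      rw [sub_sub_cancel] at this
      linarith
    have he3 : e1 ≤ 1 - ρp := min_le_left _ _
    have he4 : e1 ≤ ρm - κ0 := min_le_right _ _
    apply hj ξ (by linarith) (by linarith)
    rw [hξ2]
    have : (σ j : ℂ) * (p / σ j) = p := by field_simp
    rw [this]
    exact hpp

/-- The integral over the curve. -/
theorem curve_int (hu : Univ φ 0 1) (hκ0 : 0 < κ) (hl0 : 0 < l) (hκl : κ * Real.exp l < 1)
    (hc : Continuous fun θ : ℝ => N (φ (κ * exp (I * (θ : ℝ))))) :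
    (∮ ζ in C(0, κ), N (φ ζ) * deriv φ ζ) =
      I * ((∫ θ in (0 : ℝ)..2 * Real.pi, Bf N (fun w => φ (κ * exp w)) (I * (θ : ℝ))) -
        2 * Real.pi) := by
  obtain ⟨u1, u2, u3⟩ := univ_int (H := fun w => φ (κ * exp w)) hu hκ0 hl0 hκl (fun _ _ => rfl)
  have hκ1 : κ < 1 := by
    have : 1 ≤ Real.exp l := Real.one_le_exp hl0.le
    nlinarith
  have hne : ∀ ζ ∈ ball (0 : ℂ) 1, deriv φ ζ ≠ 0 := fun ζ hζ =>
    Pool.Agent.Helper202.Univ.deriv_ne_zero isOpen_ball hu.1 hu.2 hζ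
  have hd1 : DifferentiableOn ℂ (deriv φ) (ball 0 1) := hu.1.deriv isOpen_ball
  have hd2 : DifferentiableOn ℂ (deriv (deriv φ)) (ball 0 1) := hd1.deriv isOpen_ball
  have hcm : ∀ θ : ℝ, circleMap 0 κ θ = κ * exp (I * (θ : ℝ)) := by
    intro θ
    rw [circleMap, zero_add, mul_comm I]
  have hsph : sphere (0 : ℂ) κ ⊆ ball 0 1 :=
    sphere_subset_closedBall.trans (closedBall_subset_ball hκ1)
  have hmem : ∀ θ : ℝ, κ * exp (I * (θ : ℝ)) ∈ ball (0 : ℂ) 1 := by
    intro θ
    rw [← hcm]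
    exact hsph (circleMap_mem_sphere 0 hκ0.le θ)
  set γ : ℝ → ℂ := fun θ => κ * exp (I * (θ : ℝ)) with hγ
  have hγc : Continuous γ := by fun_prop
  have c1 : Continuous fun θ : ℝ => deriv φ (γ θ) := hd1.continuousOn.comp_continuous hγc hmem
  have c2 : Continuous fun θ : ℝ => deriv (deriv φ) (γ θ) / deriv φ (γ θ) :=
    (hd2.div hd1 hne).continuousOn.comp_continuous hγc hmem
  have h2 : (∮ ζ in C(0, κ), N (φ ζ) * deriv φ ζ) =
      ∫ θ in (0 : ℝ)..2 * Real.pi, I * (N (φ (γ θ)) * deriv φ (γ θ) * γ θ) := by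
    unfold circleIntegral
    apply intervalIntegral.integral_congr
    intro θ _
    simp only [deriv_circleMap, smul_eq_mul]
    rw [hcm θ]
    simp only [hγ]
    ring
  have h3 : (∫ θ in (0 : ℝ)..2 * Real.pi, Bf N (fun w => φ (κ * exp w)) (I * (θ : ℝ))) =
      (∫ θ in (0 : ℝ)..2 * Real.pi, N (φ (γ θ)) * deriv φ (γ θ) * γ θ) +
      ∫ θ in (0 : ℝ)..2 * Real.pi, deriv (deriv fun w => φ (κ * exp w)) (I * (θ : ℝ)) /
        deriv (fun w => φ (κ * exp w)) (I * (θ : ℝ)) := by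
    rw [← intervalIntegral.integral_add]
    · apply intervalIntegral.integral_congr
      intro θ _
      simp only [Bf]
      rw [u1 _ (im_mem_strip hl0 θ), ← mul_assoc]
    · apply Continuous.intervalIntegrable
      exact (hc.mul c1).mul hγc
    · apply Continuous.intervalIntegrable
      have e : (fun θ : ℝ => deriv (deriv fun w => φ (κ * exp w)) (I * (θ : ℝ)) /
          deriv (fun w => φ (κ * exp w)) (I * (θ : ℝ))) =
          fun θ : ℝ => deriv (deriv φ) (γ θ) / deriv φ (γ θ) * γ θ + 1 := by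
        funext θ
        rw [u2 _ (im_mem_strip hl0 θ)]
        unfold AS.Bf
        simp only [zero_add, hγ]
      rw [e]
      exact (c2.mul hγc).add continuous_const
  rw [h2, intervalIntegral.integral_const_mul, h3, u3]
  ring

/-- Full lifts are periodic. -/
theorem FullC.periodic (T : TC C0 c0) (hn : 2 ≤ n) {s : ℝ} {m : ℕ} {H : ℂ → ℂ} (hs : 0 < s)
    (hl : 0 < l) (hκ : 0 < κ) (hκl : κ * Real.exp l < 1)
    (hp : ∀ w ∈ strip l, (s : ℂ) * φ (κ * exp w) ∉ PC n c)
    (h : EL n c s m (fun w => φ (κ * exp w)) l H) (hf : FullC n c s m φ κ (H 0)) :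
    ∀ w ∈ strip l, H (w + 2 * Real.pi * I) = H w := by
  obtain ⟨G, g1, g2⟩ := hf
  have hm : ∀ w ∈ strip l, (κ : ℂ) * exp w ∈ ball (0 : ℂ) 1 := fun w hw => kexp_mem hκ hκl hw
  have key := T.UNIQ n c m (strip l) (fun w => s * φ (κ * exp w)) H
    (fun w => G (κ * exp w)) 0 hn (isOpen_strip _) (convex_strip _).isPreconnected
    (zero_mem_strip hl) hp h.diff
    (g1.diff.comp (by fun_prop) hm) h.eq (fun w hw => g1.eq _ (hm w hw))
    (by simp only [Complex.exp_zero, mul_one]; exact g2.symm)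
  intro w hw
  have hw2 : w + 2 * Real.pi * I ∈ strip l := by
    have := strip_shift hw (2 * Real.pi)
    push_cast at this
    exact this
  have e : exp (w + 2 * Real.pi * I) = exp w := Complex.exp_periodic w
  rw [key _ hw2, key _ hw, e]

/-- The circle theorem. -/
theorem circle (T : TC C0 c0) (C : Cx n c x r ν A U σ) (hN : LN n c x U σ N)
    (hφ : FD n c U σ φ κ0) (hκ : κ0 < κ) (hκ1 : κ < 1) (hM : 0 ≤ M) {d' : ℝ} (hd' : 0 < d')
    {G : ℕ → ℂ → ℂ} (hG : GS n c x U σ (φ κ) d' M m G) :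
    ((∀ᶠ j in (U : Filter ℕ), FullC n c (σ j) (m j) φ κ (G j (φ κ))) ∧
      (∮ ζ in C(0, κ), N (φ ζ) * deriv φ ζ) = 0) ∨
    ((∀ᶠ j in (U : Filter ℕ), ¬ FullC n c (σ j) (m j) φ κ (G j (φ κ))) ∧
      ((∮ ζ in C(0, κ), N (φ ζ) * deriv φ ζ) = -(2 * Real.pi * I) ∨
        (n = 2 ∧ ¬ (∀ ζ ∈ ball (0 : ℂ) 1, φ (-ζ) = - φ ζ) ∧
          (∮ ζ in C(0, κ), N (φ ζ) * deriv φ ζ) = -(Real.pi * I)))) := by
  have hn := C.h.hn
  have hκ0 : 0 < κ := hφ.k0.trans hκ
  obtain ⟨l, d, B, hl, hl1, hl2, hE⟩ := exists_EE T.K C.pos hφ hκ hκ1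
  set E : ℂ → ℂ := fun w => φ (κ * exp w) with hEd
  have hE0 : E 0 = φ κ := by simp [hEd]
  rw [← hE0] at hG
  obtain ⟨H, hH, hH0⟩ := exists_LS T C hE hM hd' hG
  have hM' : 0 ≤ M / ‖deriv E 0‖ := by positivity
  obtain ⟨F, hT⟩ := hH.ht T.K T.LIFT T.UNIQ T.MONT C hN hE hM'
  have hα := alpha T C hN hE hM hd' hG hM' hT
  have m0 : (0 : ℂ) ∈ strip l := zero_mem_strip hl
  have m1 := two_pi_mem hl
  have m2 : (2 * Real.pi * I + 2 * Real.pi * I : ℂ) ∈ strip l := by
    have := strip_shift m1 (2 * Real.pi)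
    push_cast at this
    exact this
  have e2 := (hT.hl.shift hE).2 _ m1
  have hNc : Continuous fun θ : ℝ => N (φ (κ * exp (I * (θ : ℝ)))) := by
    have h1 : ContinuousOn (fun w => N (E w)) (strip l) :=
      hN.diff.continuousOn.comp hE.diff.continuousOn fun w hw => hE.free_pt hw
    exact h1.comp_continuous (f := fun θ : ℝ => I * (θ : ℝ)) (by fun_prop)
      fun θ => im_mem_strip hl θ
  rw [← hE0, curve_int hφ.u hκ0 hl hl2 hNc]
  have hfr : ∀ᶠ j in (U : Filter ℕ), ∀ w ∈ strip l, (σ j : ℂ) * φ (κ * exp w) ∉ PC n c := by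
    filter_upwards [hE.free] with j hj w hw
    exact EE.not_mem (C.pos j) hE.d0 hj hw
  -- the translation case
  have htr : F (2 * Real.pi * I + 2 * Real.pi * I) ≠ 0 →
      I * ((∫ θ in (0 : ℝ)..2 * Real.pi, Bf N E (I * (θ : ℝ))) - 2 * Real.pi) =
        -(2 * Real.pi * I) := by
    intro hne
    have hb : F (2 * Real.pi * I) ≠ 0 := by
      intro hb
      rw [e2, hb] at hne
      simp at hne
    have hα1 : deriv F (2 * Real.pi * I) = 1 := by
      rcases hα with h | h
      · exact h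
      · rw [e2, h] at hne
        exfalso
        apply hne
        ring
    rw [hT.translation T C hE hM' hα1 hb]
    ring
  -- the full case
  have hfull : (∀ᶠ j in (U : Filter ℕ), ∃ h, Lf n c (m j) (fun ζ => σ j * φ ζ) h ∧
      ∀ w ∈ strip l, H j w = h (κ * exp w)) →
      ((∀ᶠ j in (U : Filter ℕ), FullC n c (σ j) (m j) φ κ (G j (E 0))) ∧
      I * ((∫ θ in (0 : ℝ)..2 * Real.pi, Bf N E (I * (θ : ℝ))) - 2 * Real.pi) = 0) := by
    intro hev
    constructor
    · filter_upwards [hev, hH0] with j hj h0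
      obtain ⟨h, h1, h2⟩ := hj
      refine ⟨h, h1, ?_⟩
      have h3 := h2 0 m0
      rw [Complex.exp_zero, mul_one] at h3
      rw [← h0.1, h3]
    · rw [hT.integral T C hE (L := 2 * Real.pi) (v := 2 * Real.pi) (by positivity) (by
        filter_upwards [hev] with j hj
        obtain ⟨h, h1, h2⟩ := hj
        exact (univ_int (h1.univ (Univ.scale (C.pos j) hφ.u)) hκ0 hl hl2 h2).2.2)]
      simp
  have hnf : (∀ᶠ j in (U : Filter ℕ), H j (2 * Real.pi * I + 2 * Real.pi * I) ≠ H j 0) →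
      ∀ᶠ j in (U : Filter ℕ), ¬ FullC n c (σ j) (m j) φ κ (G j (E 0)) := by
    intro hev
    filter_upwards [hev, hH, hH0, hfr] with j h1 h2 h3 hf hful
    rw [← h3.1] at hful
    have hp := FullC.periodic T hn (C.pos j) hl hκ0 hl2 hf h2.1 hful
    have p1 := hp 0 m0
    have p2 := hp _ m1
    rw [zero_add] at p1
    exact h1 (p2.trans p1)
  have hnf1 : (∀ᶠ j in (U : Filter ℕ), H j (2 * Real.pi * I) ≠ H j 0) →
      ∀ᶠ j in (U : Filter ℕ), ¬ FullC n c (σ j) (m j) φ κ (G j (E 0)) := by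
    intro hev
    filter_upwards [hev, hH, hH0, hfr] with j h1 h2 h3 hf hful
    rw [← h3.1] at hful
    have hp := FullC.periodic T hn (C.pos j) hl hκ0 hl2 hf h2.1 hful
    have p1 := hp 0 m0
    rw [zero_add] at p1
    exact h1 p1
  have hne4 : (∀ᶠ j in (U : Filter ℕ), H j (2 * Real.pi * I + 2 * Real.pi * I) ≠ H j 0) →
      F (2 * Real.pi * I + 2 * Real.pi * I) ≠ 0 := by
    intro hev
    have := hT.sep T C hE hM' m2 m0 (Or.inr hev)
    rwa [hT.hl.zero] at this
  rcases Nat.lt_or_ge 2 n with hn3 | hn2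
  · -- degree at least three
    have hrot : ∀ᶠ j in (U : Filter ℕ), (∃ h, Lf n c (m j) (fun ζ => σ j * φ ζ) h ∧
        ∀ w ∈ strip l, H j w = h (κ * exp w)) ∨
        (∃ k < m j, ∀ w ∈ strip l, orb n c (H j w) k ≠ 0 ∧
          orb n c (H j (w + 2 * Real.pi * I)) k =
            exp (2 * Real.pi * I / n) * orb n c (H j w) k) := by
      filter_upwards [hH, hφ.free] with j hj hf
      exact T.ROTC n c (σ j) φ κ0 κ l (m j) (H j) hn (C.pos j) hφ.u hφ.k0 hl hl1 hl2 hf
        hj.1.diff hj.1.eq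
    rcases Ultrafilter.eventually_or.mp hrot with hev | hev
    · exact Or.inl (hfull hev)
    · have hev4 : ∀ᶠ j in (U : Filter ℕ), H j (2 * Real.pi * I + 2 * Real.pi * I) ≠ H j 0 := by
        filter_upwards [hev] with j hj
        obtain ⟨k, -, hk⟩ := hj
        have k0 := hk 0 m0
        have k1 := hk _ m1
        rw [zero_add] at k0
        rw [k0.2, ← mul_assoc] at k1
        exact rot_ne (s := 0) (m := 0) (exp_div_ne_one hn3).2 k0.1 k1.2
      exact Or.inr ⟨hnf hev4, Or.inl (htr (hne4 hev4))⟩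
  · -- degree two
    have hn2' : n = 2 := le_antisymm hn2 hn
    subst hn2'
    have hrot : ∀ᶠ j in (U : Filter ℕ), (∃ h, Lf 2 c (m j) (fun ζ => σ j * φ ζ) h ∧
        ∀ w ∈ strip l, H j w = h (κ * exp w)) ∨
        (((∀ w ∈ strip l, H j (w + 4 * Real.pi * I) = H j w ∧
          H j (w + 2 * Real.pi * I) ≠ H j w) ∧
          ∫ θ in (0 : ℝ)..4 * Real.pi, deriv (deriv (H j)) (I * (θ : ℝ)) /
            deriv (H j) (I * (θ : ℝ)) = 2 * Real.pi) ∨
        (∃ k < m j, ∀ w ∈ strip l, orb 2 c (H j w) k ≠ 0 ∧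
          orb 2 c (H j (w + 4 * Real.pi * I)) k = - orb 2 c (H j w) k)) := by
      filter_upwards [hH, hφ.free] with j hj hf
      exact T.ROT2C c (σ j) φ κ0 κ l (m j) (H j) (C.pos j) hφ.u hφ.k0 hl hl1 hl2 hf
        hj.1.diff hj.1.eq
    have e4 : (4 * Real.pi * I : ℂ) = 2 * Real.pi * I + 2 * Real.pi * I := by ring
    rcases Ultrafilter.eventually_or.mp hrot with hev | hev
    · exact Or.inl (hfull hev)
    rcases Ultrafilter.eventually_or.mp hev with hev | hev
    · -- one critical passage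
      have hev2 : ∀ᶠ j in (U : Filter ℕ), H j (2 * Real.pi * I) ≠ H j 0 := by
        filter_upwards [hev] with j hj
        have := (hj.1 0 m0).2
        rwa [zero_add] at this
      have hb : F (2 * Real.pi * I) ≠ 0 := by
        have := hT.sep T C hE hM' m1 m0 (Or.inr hev2)
        rwa [hT.hl.zero] at this
      have hF4 : F (2 * Real.pi * I + 2 * Real.pi * I) = 0 := by
        have t1 := hT.t0 _ m2
        have t2 : Tendsto (fun j => (H j (2 * Real.pi * I + 2 * Real.pi * I) - H j 0) /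
            deriv (H j) 0) (U : Filter ℕ) (𝓝 0) := by
          apply tendsto_const_nhds.congr'
          filter_upwards [hev] with j hj
          have := (hj.1 0 m0).1
          rw [zero_add, e4] at this
          rw [this, sub_self, zero_div]
        exact tendsto_nhds_unique t1 t2
      have hα' : deriv F (2 * Real.pi * I) = -1 := by
        rcases hα with h | h
        · rw [e2, h, one_mul] at hF4
          exfalso
          apply hb
          have : 2 * F (2 * Real.pi * I) = 0 := by rw [← hF4]; ring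
          simpa using this
        · exact h
      refine Or.inr ⟨hnf1 hev2, Or.inr ⟨rfl, ?_, ?_⟩⟩
      · intro hodd
        refine hT.centred T C rfl hE ?_ hM' hα'
        intro w hw
        have hexp : exp (w + Real.pi * I) = - exp w := by
          rw [Complex.exp_add, Complex.exp_pi_mul_I]
          ring
        show φ (κ * exp (w + Real.pi * I)) = - φ (κ * exp w)
        rw [hexp, mul_neg, hodd _ (kexp_mem hκ0 hl2 hw)]
      · have i1 := hT.integral T C hE (L := 4 * Real.pi) (v := 2 * Real.pi) (by positivity)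
          (hev.mono fun j hj => hj.2)
        have hBd : ContinuousOn (Bf N E) (strip l) := by
          have ho := isOpen_strip l
          have a1 : ContinuousOn (fun w => N (E w)) (strip l) :=
            hN.diff.continuousOn.comp hE.diff.continuousOn fun w hw => hE.free_pt hw
          have a2 : DifferentiableOn ℂ (deriv E) (strip l) := hE.diff.deriv ho
          exact (a1.mul a2.continuousOn).add
            (((a2.deriv ho).div a2 hE.ne).continuousOn)
        have hcont : Continuous fun θ : ℝ => Bf N E (I * (θ : ℝ)) :=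
          hBd.comp_continuous (by fun_prop) fun θ => im_mem_strip hl θ
        have hper : Function.Periodic (fun θ : ℝ => Bf N E (I * (θ : ℝ))) (2 * Real.pi) := by
          intro θ
          simp only
          rw [← hE.Bf_shift N (im_mem_strip hl θ)]
          congr 1
          push_cast
          ring
        have i2 : (∫ θ in (0 : ℝ)..4 * Real.pi, Bf N E (I * (θ : ℝ))) =
            (∫ θ in (0 : ℝ)..2 * Real.pi, Bf N E (I * (θ : ℝ))) +
            ∫ θ in (0 : ℝ)..2 * Real.pi, Bf N E (I * (θ : ℝ)) := by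
          rw [← intervalIntegral.integral_add_adjacent_intervals (b := 2 * Real.pi)
            (hcont.intervalIntegrable _ _) (hcont.intervalIntegrable _ _)]
          congr 1
          have := hper.intervalIntegral_add_eq (2 * Real.pi) 0
          rw [zero_add] at this
          rw [← this]
          congr 1
          ring
        rw [i2] at i1
        have i3 : (∫ θ in (0 : ℝ)..2 * Real.pi, Bf N E (I * (θ : ℝ))) = Real.pi := by
          linear_combination i1 / 2
        rw [i3]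
        ring
    · -- two critical passages
      have hev4 : ∀ᶠ j in (U : Filter ℕ), H j (2 * Real.pi * I + 2 * Real.pi * I) ≠ H j 0 := by
        filter_upwards [hev] with j hj
        obtain ⟨k, -, hk⟩ := hj
        have k0 := hk 0 m0
        rw [zero_add, e4] at k0
        exact rot_ne (s := 0) (m := 0) (ζ := -1) (by norm_num) k0.1 (by rw [k0.2]; ring)
      exact Or.inr ⟨hnf hev4, Or.inl (htr (hne4 hev4))⟩

end Pool.Agent.J4H16.UD
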