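import Mathlib
import Pool.Agent.J4H16.UD.C3
import Pool.Agent.J4H16.AS.Fi3
import Pool.Agent.J4H8.UD.Basic
import Pool.Agent.J4H71.AS.Fr

/-!
# Project UD, assembly, part one
-/

set_option autoImplicit false
open Set Filter Topology Metric Complex MeasureTheory
open scoped ComplexConjugate

namespace Pool.Agent.J4H16.UD

open Pool.Agent.J4H16 Pool.Agent.W746.LD Pool.Agent.J4H16.AS

variable {n : ℕ} {c x : ℂ} {r : ℝ} {ν : ℂ → ℂ} {A : ℝ} {U : Ultrafilter ℕ} {σ : ℕ → ℝ}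
variable {C0 c0 : ℝ} {E φ : ℂ → ℂ} {l d B M κ0 κ ρ : ℝ} {m : ℕ → ℕ} {N : ℂ → ℂ} {L : Set ℂ}

/-- All tools. -/
structure TU (C0 c0 : ℝ) : Prop extends TC C0 c0 where
  SUP : S_SUP
  CONN2 : S_CONN2
  SYMD : S_SYMD
  COV : S_COV
  LIMU : S_LIMU
  LIMD : S_LIMD
  ENTRYC : S_ENTRYC
  NCZC : S_NCZC
  ATTC : S_ATTC
  TRKC : S_TRKC
  NFC : S_NFC
  FNCC : S_FNCC
  BASE : S_BASE2

/-- The restriction of a conformal disc to a smaller one. -/
def rs (t : ℝ) (φ : ℂ → ℂ) : ℂ → ℂ := fun ζ => φ (t * ζ)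

theorem rs_mem {t : ℝ} (ht : 0 < t) {ζ : ℂ} (hζ : ζ ∈ ball (0 : ℂ) 1) :
    (t : ℂ) * ζ ∈ ball (0 : ℂ) t := by
  rw [mem_ball, dist_zero_right] at hζ ⊢
  rw [norm_mul, Complex.norm_real, Real.norm_of_nonneg ht.le]
  nlinarith

theorem rs_univ {t : ℝ} (ht : 0 < t) (ht1 : t ≤ 1) (h : Univ φ 0 1) : Univ (rs t φ) 0 1 := by
  have ht' : (t : ℂ) ≠ 0 := by exact_mod_cast ht.ne'
  have hm : ∀ ζ ∈ ball (0 : ℂ) 1, (t : ℂ) * ζ ∈ ball (0 : ℂ) 1 := fun ζ hζ =>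
    ball_subset_ball ht1 (rs_mem ht hζ)
  refine ⟨h.1.comp (by fun_prop) hm, ?_⟩
  intro u hu v hv huv
  exact mul_left_cancel₀ ht' (h.2 (hm u hu) (hm v hv) huv)

theorem rs_image {t : ℝ} (ht : 0 < t) : rs t φ '' ball 0 1 = φ '' ball 0 t := by
  have ht' : (t : ℂ) ≠ 0 := by exact_mod_cast ht.ne'
  ext z
  constructor
  · rintro ⟨ζ, hζ, rfl⟩
    exact ⟨t * ζ, rs_mem ht hζ, rfl⟩
  · rintro ⟨ζ, hζ, rfl⟩
    refine ⟨ζ / t, ?_, by simp only [rs]; rw [mul_div_cancel₀ _ ht']⟩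
    rw [mem_ball, dist_zero_right] at hζ ⊢
    rw [norm_div, Complex.norm_real, Real.norm_of_nonneg ht.le, div_lt_one ht]
    exact hζ

theorem rs_sub {t : ℝ} (ht : 0 < t) (ht1 : t ≤ 1) : rs t φ '' ball 0 1 ⊆ φ '' ball 0 1 := by
  rw [rs_image ht]
  exact image_mono (ball_subset_ball ht1)

theorem rs_norm {t : ℝ} (ht : 0 < t) (ζ : ℂ) : ‖(t : ℂ) * ζ‖ = t * ‖ζ‖ := by
  rw [norm_mul, Complex.norm_real, Real.norm_of_nonneg ht.le]

theorem CD.rs {t : ℝ} (h : CD φ κ L) (ht : κ < t) (ht1 : t ≤ 1) : CD (rs t φ) (κ / t) L := by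
  have ht0 : 0 < t := h.k0.trans ht
  refine ⟨rs_univ ht0 ht1 h.u, div_pos h.k0 ht0, by rw [div_lt_one ht0]; exact ht, ?_⟩
  intro ζ h1 h2
  rw [div_lt_iff₀ ht0] at h1
  apply h.free
  · rw [rs_norm ht0]
    linarith
  · rw [rs_norm ht0]
    nlinarith [norm_nonneg ζ]

theorem CD.fd {t κ' : ℝ} (hp : ∀ j, 0 < σ j) (h : CD φ κ (Lim U σ (PC n c)))
    (hκ : κ < κ') (ht : κ' < t) (ht1 : t < 1) : FD n c U σ (UD.rs t φ) (κ' / t) := by
  have hκ0 : 0 < κ' := h.k0.trans hκ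
  have ht0 : 0 < t := hκ0.trans ht
  refine ⟨rs_univ ht0 ht1.le h.u, div_pos hκ0 ht0, by rw [div_lt_one ht0]; exact ht, ?_⟩
  set S : Set ℂ := closedBall 0 t \ ball 0 κ' with hS
  have hSc : IsCompact S := (isCompact_closedBall 0 t).diff isOpen_ball
  have hSb : S ⊆ ball 0 1 := fun ζ hζ => closedBall_subset_ball ht1 hζ.1
  have hSm : ∀ ζ, ζ ∈ S ↔ κ' ≤ ‖ζ‖ ∧ ‖ζ‖ ≤ t := by
    intro ζ
    rw [hS, Set.mem_sdiff, mem_closedBall, mem_ball, dist_zero_right, not_lt, and_comm]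
  have h1 := Pool.Agent.J4H71.AS.free_compact (n := n) (c := c) (U := U) hp
    (hSc.image_of_continuousOn (h.u.1.continuousOn.mono hSb)) (by
      rintro _ ⟨ζ, hζ, rfl⟩
      obtain ⟨a1, a2⟩ := (hSm ζ).mp hζ
      exact h.free ζ (by linarith) (by linarith))
  filter_upwards [h1] with j hj ζ h2 h3 hmem
  rw [div_lt_iff₀ ht0] at h2
  refine hj _ hmem (φ (t * ζ)) ⟨t * ζ, ?_, rfl⟩ rfl
  rw [hSm, rs_norm ht0]
  constructor
  · linarith
  · nlinarith [norm_nonneg ζ]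

/-- Change of the radius. -/
theorem rs_int {t : ℝ} (ht : 0 < t) (N φ : ℂ → ℂ) (ρ : ℝ) :
    (∮ ζ in C(0, ρ / t), N (rs t φ ζ) * deriv (rs t φ) ζ) =
      ∮ ζ in C(0, ρ), N (φ ζ) * deriv φ ζ := by
  have ht' : (t : ℂ) ≠ 0 := by exact_mod_cast ht.ne'
  have hd : ∀ ζ, deriv (rs t φ) ζ = t * deriv φ (t * ζ) := by
    intro ζ
    have h1 := deriv_comp_mul_left (t : ℂ) φ ζ
    rw [smul_eq_mul] at h1
    exact h1
  have hcm : ∀ θ : ℝ, (t : ℂ) * circleMap 0 (ρ / t) θ = circleMap 0 ρ θ := by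
    intro θ
    simp only [circleMap, zero_add]
    push_cast
    field_simp
  unfold circleIntegral
  apply intervalIntegral.integral_congr
  intro θ _
  simp only [deriv_circleMap, smul_eq_mul]
  rw [hd]
  simp only [rs]
  rw [hcm θ, ← hcm θ]
  ring

/-- The possible indices. -/
theorem index_values (T : TC C0 c0) (C : Cx n c x r ν A U σ) (hN : LN n c x U σ N)
    (hall : AG n c x U σ m) (h : CD φ κ (Lim U σ (PC n c))) (hρ : κ < ρ) (hρ1 : ρ < 1) :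
    ∃ ι : ℝ, 0 ≤ ι ∧ ι ≤ 1 ∧ (∮ ζ in C(0, ρ), N (φ ζ) * deriv φ ζ) =
      -(2 * Real.pi * I * ι) := by
  obtain ⟨κ', h1, h2⟩ := exists_between hρ
  obtain ⟨t, h3, h4⟩ := exists_between hρ1
  have hρ0 : 0 < ρ := h.k0.trans hρ
  have ht0 : 0 < t := by linarith
  have hfd := h.fd C.pos h1 (h2.trans h3) h4
  have hZ : UD.rs t φ ((ρ / t : ℝ) : ℂ) ∉ Lim U σ (PC n c) := by
    have ht' : (t : ℂ) ≠ 0 := by exact_mod_cast ht0.ne'
    have : UD.rs t φ ((ρ / t : ℝ) : ℂ) = φ ρ := by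
      simp only [UD.rs]
      push_cast
      rw [mul_div_cancel₀ _ ht']
    rw [this]
    apply h.free
    · rw [Complex.norm_real, Real.norm_of_nonneg hρ0.le]; exact hρ
    · rw [Complex.norm_real, Real.norm_of_nonneg hρ0.le]; exact hρ1
  obtain ⟨d, M, G, hd, hM, hG⟩ := hall _ hZ
  rw [← rs_int ht0 N φ ρ]
  rcases circle T C hN hfd (κ := ρ / t) (by gcongr) (by rw [div_lt_one ht0]; exact h3) hM hd hG
    with ⟨-, h⟩ | ⟨-, h⟩
  · exact ⟨0, le_rfl, zero_le_one, by rw [h]; simp⟩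
  · rcases h with h | ⟨-, -, h⟩
    · exact ⟨1, zero_le_one, le_rfl, by rw [h]; simp⟩
    · exact ⟨1 / 2, by norm_num, by norm_num, by rw [h]; push_cast; ring⟩

/-- Superadditivity of the index. -/
theorem index_sum (T : TU C0 c0) (C : Cx n c x r ν A U σ) (hcl : IsClosed (Lim U σ (PC n c)))
    (htd : TD (Lim U σ (PC n c)))
    (hN : LN n c x U σ N) (hall : AG n c x U σ m) {φ0 φ1 φ2 : ℂ → ℂ}
    {B κ0 κ1 κ2 ρ0 ρ1 ρ2 i1 i2 : ℝ}
    (h0 : CD φ0 κ0 (Lim U σ (PC n c))) (h1 : CD φ1 κ1 (Lim U σ (PC n c)))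
    (h2 : CD φ2 κ2 (Lim U σ (PC n c))) (a0 : κ0 < ρ0) (b0 : ρ0 < 1) (a1 : κ1 < ρ1) (b1 : ρ1 < 1)
    (a2 : κ2 < ρ2) (b2 : ρ2 < 1) (hB : φ0 '' ball 0 1 ⊆ ball 0 B)
    (s1 : φ1 '' ball 0 1 ⊆ φ0 '' ball 0 1) (s2 : φ2 '' ball 0 1 ⊆ φ0 '' ball 0 1)
    (hdis : Disjoint (φ1 '' ball 0 1) (φ2 '' ball 0 1))
    (e1 : (∮ ζ in C(0, ρ1), N (φ1 ζ) * deriv φ1 ζ) = -(2 * Real.pi * I * i1))
    (e2 : (∮ ζ in C(0, ρ2), N (φ2 ζ) * deriv φ2 ζ) = -(2 * Real.pi * I * i2)) : i1 + i2 ≤ 1 := by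
  obtain ⟨i0, hi0, hi1, e0⟩ := index_values T.toTC C hN hall h0 a0 b0
  refine le_trans ?_ hi1
  exact T.SUP (Lim U σ (PC n c)) N B hcl htd hN.diff (fun φ κ ρ hφ hκ hρ _ => by
      obtain ⟨ι, j1, -, j3⟩ := index_values T.toTC C hN hall hφ hκ hρ
      exact ⟨ι, j1, j3⟩)
    φ0 φ1 φ2 κ0 κ1 κ2 ρ0 ρ1 ρ2 i0 i1 i2 h0 h1 h2 a0 b0 a1 b1 a2 b2 hB s1 s2 hdis e0 e1 e2

/-- If round discs lift along the orbit of the good point then the index is zero. -/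
theorem no_full (T : TC C0 c0) (C : Cx n c x r ν A U σ) (hN : LN n c x U σ N)
    (hφ : FD n c U σ φ κ0) (hκ : κ0 < κ) (hκ1 : κ < 1) {R r1 : ℝ} (hr1 : 0 < r1) (hrR : r1 < R)
    (hR : φ '' ball 0 1 ⊆ ball 0 r1) {l : ℕ → ℕ} {B : ℝ} (hB : B < R)
    (hl : ∀ᶠ j in (U : Filter ℕ), ‖orb n c x (l j)‖ ≤ σ j * B)
    (hg : ∀ᶠ j in (U : Filter ℕ), ∃ g, Br n c (l j) 0 (σ j * R) g ∧ g (orb n c x (l j)) = x) :
    (∮ ζ in C(0, κ), N (φ ζ) * deriv φ ζ) = 0 := by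
  have hC0 := T.K.one_le
  have hκ0 : 0 < κ := hφ.k0.trans hκ
  have hR0 : 0 < R := hr1.trans hrR
  obtain ⟨k, hk⟩ := exists_rad (θ := max (B / R) (r1 / R)) (max_lt (by rw [div_lt_one hR0]; exact hB)
    (by rw [div_lt_one hR0]; exact hrR))
  have hk1 : B ≤ (1 - (3 / 4) ^ k) * R := by
    have := (le_max_left _ _).trans hk
    rwa [div_le_iff₀ hR0] at this
  have hk2 : r1 ≤ (1 - (3 / 4) ^ k) * R := by
    have := (le_max_right _ _).trans hk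
    rwa [div_le_iff₀ hR0] at this
  obtain ⟨g, hg⟩ := hg.choice
  set G : ℕ → ℂ → ℂ := fun j W => g j (σ j * W) with hG
  have hball : ∀ j, ∀ W ∈ ball (0 : ℂ) R, (σ j : ℂ) * W ∈ ball (0 : ℂ) (σ j * R) := by
    intro j W hW
    have hs := C.pos j
    rw [mem_ball, dist_zero_right] at hW ⊢
    rw [norm_mul, Complex.norm_real, Real.norm_of_nonneg hs.le]
    gcongr
  have hdiff : ∀ᶠ j in (U : Filter ℕ), DifferentiableOn ℂ (G j) (ball 0 R) ∧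
      ∀ W ∈ ball (0 : ℂ) R, orb n c (G j W) (l j) = σ j * W := by
    filter_upwards [hg] with j hj
    exact ⟨hj.1.diff.comp (by fun_prop) (hball j), fun W hW => hj.1.eq _ (hball j W hW)⟩
  have hκb : (κ : ℂ) ∈ ball (0 : ℂ) 1 := by
    rw [mem_ball, dist_zero_right, Complex.norm_real, Real.norm_of_nonneg hκ0.le]
    exact hκ1
  have hφκ : ‖φ κ‖ < r1 := by
    have := hR ⟨_, hκb, rfl⟩
    rwa [mem_ball, dist_zero_right] at this
  set M : ℝ := 2 * R * C0 ^ (2 * k) with hM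
  have hsub : ball (φ κ) (R - r1) ⊆ ball 0 R := by
    apply ball_subset_ball'
    rw [dist_zero_right]
    linarith
  have hGS : GS n c x U σ (φ κ) (R - r1) M l G := by
    filter_upwards [hdiff, hg, hl] with j h1 h2 h3
    have hs := C.pos j
    have hs' : (σ j : ℂ) ≠ 0 := by exact_mod_cast hs.ne'
    have hsb : SB n c (G j 0) (σ j) (l j) 0 R 0 (G j) := ⟨h1.1, h1.2, by simp⟩
    refine ⟨h1.1.mono hsub, fun W hW => h1.2 W (hsub hW), ?_⟩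
    have h4 := KC.rad_lip T.K hR0 (hsb.univ hs) k (x := orb n c x (l j) / σ j)
      (u := φ κ) (by
        rw [norm_div, Complex.norm_real, Real.norm_of_nonneg hs.le, div_le_iff₀ hs]
        refine h3.trans ?_
        rw [mul_comm]
        gcongr) (by linarith)
    have h5 : G j (orb n c x (l j) / σ j) = x := by
      simp only [hG]
      rw [mul_div_cancel₀ _ hs', h2.2]
    rw [h5] at h4
    rw [norm_sub_rev]
    exact h4
  have hfull : ∀ᶠ j in (U : Filter ℕ), FullC n c (σ j) (l j) φ κ (G j (φ κ)) := by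
    filter_upwards [hdiff] with j hj
    have hm : ∀ ζ ∈ ball (0 : ℂ) 1, φ ζ ∈ ball (0 : ℂ) R := fun ζ hζ =>
      ball_subset_ball hrR.le (hR ⟨ζ, hζ, rfl⟩)
    exact ⟨fun ζ => G j (φ ζ), ⟨hj.1.comp hφ.u.1 hm, fun ζ hζ => hj.2 _ (hm ζ hζ)⟩, rfl⟩
  rcases circle T C hN hφ hκ hκ1 (by positivity) (by linarith : 0 < R - r1) hGS with
    ⟨-, h⟩ | ⟨h, -⟩
  · exact h
  · exact absurd hfull (by
      intro h2
      obtain ⟨j, a1, a2⟩ := (h.and h2).exists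
      exact a1 a2)

/-- A critical passage over a conformal disc. -/
theorem passageC (hn : 2 ≤ n) {l : ℕ} {φ : ℂ → ℂ} (hφ : Univ φ 0 1) {ζ0 : ℂ}
    (hζ0 : ζ0 ∈ ball (0 : ℂ) 1) (hx : φ ζ0 = orb n c x l)
    (hno : ¬ ∃ h, Lf n c l φ h ∧ h ζ0 = x) :
    ∃ (i : ℕ) (h : ℂ → ℂ) (v : ℂ), i < l ∧ Lf n c i φ h ∧
      h ζ0 = orb n c x (l - i) ∧ v ∈ ball (0 : ℂ) 1 ∧ h v = c := by
  by_contra hcon
  push Not at hcon
  apply hno
  apply exists_lf hn hφ hζ0 hx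
  intro j hj h hh hgx w hw hgc
  exact hcon j h w hj hh hgx hw hgc

/-- Totally disconnected sets have empty interior. -/
theorem TD.emp (h : TD L) (Z : ℂ) {e : ℝ} (he : 0 < e) : ∃ W ∈ ball Z e, W ∉ L := by
  by_contra hcon
  push Not at hcon
  obtain ⟨D, h1, h2, h3, h4⟩ := h Z (hcon Z (mem_ball_self he)) (e / 2) (half_pos he)
  have hne : (frontier D).Nonempty := by
    rw [Set.nonempty_iff_ne_empty]
    intro hf
    have hclo : IsClopen D := isClopen_iff_frontier_eq_empty.mpr hf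
    rcases isClopen_iff.mp hclo with h5 | h5
    · rw [h5] at h2
      exact h2
    · have h6 : (Z + e : ℂ) ∈ D := by rw [h5]; trivial
      have h7 := h3 h6
      rw [mem_ball, dist_eq_norm, add_sub_cancel_left, Complex.norm_real,
        Real.norm_of_nonneg he.le] at h7
      linarith
  obtain ⟨z, hz⟩ := hne
  apply h4 z hz
  apply hcon
  have h5 : z ∈ closedBall Z (e / 2) :=
    closure_minimal (h3.trans ball_subset_closedBall) isClosed_closedBall (frontier_subset_closure hz)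
  exact closedBall_subset_ball (by linarith) h5

end Pool.Agent.J4H16.UD
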