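import Mathlib
import Pool.Agent.J4H16.UD.A1

/-!
# Project UD, assembly, part two
-/

set_option autoImplicit false
open Set Filter Topology Metric Complex MeasureTheory
open scoped ComplexConjugate

namespace Pool.Agent.J4H16.UD

open Pool.Agent.J4H16 Pool.Agent.W746.LD Pool.Agent.J4H16.AS

variable {n : ℕ} {c x : ℂ} {r : ℝ} {ν : ℂ → ℂ} {A : ℝ} {U : Ultrafilter ℕ} {σ : ℕ → ℝ}
variable {C0 c0 : ℝ} {E φ : ℂ → ℂ} {l d B M κ0 κ ρ : ℝ} {m : ℕ → ℕ} {N : ℂ → ℂ} {L : Set ℂ}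

/-- Limits at moving points. -/
theorem lim_pt (MONT : S_MONT) {φ : ℕ → ℂ → ℂ} {g : ℂ → ℂ} {B : ℝ} (hp : ∀ j, 0 < σ j)
    (hφ : ∀ᶠ j in (U : Filter ℕ), Univ (φ j) 0 1 ∧ φ j '' ball 0 1 ⊆ ball 0 (σ j * B))
    (hg : ∀ ζ ∈ ball (0 : ℂ) 1, Tendsto (fun j => φ j ζ / σ j) (U : Filter ℕ) (𝓝 (g ζ)))
    {v : ℕ → ℂ} {κ : ℝ} (hκ : κ < 1) (hv : ∀ᶠ j in (U : Filter ℕ), ‖v j‖ ≤ κ) :
    ∃ w, ‖w‖ ≤ κ ∧ Tendsto (fun j => φ j (v j) / σ j) (U : Filter ℕ) (𝓝 (g w)) := by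
  obtain ⟨w, hw, hvw⟩ := ulim hv
  obtain ⟨G, hG1, hG2⟩ := MONT U (fun j ζ => φ j ζ / σ j) (ball 0 1) isOpen_ball (by
      filter_upwards [hφ] with j hj
      exact hj.1.1.div_const _) (by
      intro S hS _
      refine ⟨B, ?_⟩
      filter_upwards [hφ] with j hj z hz
      have hs := hp j
      have := hj.2 ⟨z, hS hz, rfl⟩
      rw [mem_ball, dist_zero_right] at this
      rw [norm_div, Complex.norm_real, Real.norm_of_nonneg hs.le, div_le_iff₀ hs]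
      linarith [mul_comm (σ j) B])
  have hw1 : w ∈ ball (0 : ℂ) 1 := by
    rw [mem_ball, dist_zero_right]; exact hw.trans_lt hκ
  have hGg : G w = g w := tendsto_nhds_unique (hG2.tendsto_at hw1) (hg w hw1)
  refine ⟨w, hw, ?_⟩
  rw [← hGg]
  apply hG2.tendsto_comp (hG1.continuousOn w hw1) hw1
  exact tendsto_nhdsWithin_iff.mpr ⟨hvw, by
    filter_upwards [hv] with j hj
    rw [mem_ball, dist_zero_right]; exact hj.trans_lt hκ⟩

theorem img_open {g : ℂ → ℂ} (hg : Univ g 0 1) {ρ : ℝ} (hρ : ρ ≤ 1) :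
    IsOpen (g '' ball 0 ρ) :=
  Pool.Agent.Helper202.Univ.isOpen_image isOpen_ball hg.1 hg.2 isOpen_ball (ball_subset_ball hρ)

theorem img_conn {g : ℂ → ℂ} (hg : Univ g 0 1) {ρ : ℝ} (hρ : ρ ≤ 1) :
    IsPreconnected (g '' ball 0 ρ) :=
  (convex_ball (0 : ℂ) ρ).isPreconnected.image g (hg.1.continuousOn.mono (ball_subset_ball hρ))

/-- A small disc about a point of the limit set. -/
theorem small_disc (COV : S_COV) (hcl : IsClosed L) (htd : TD L) {V : ℂ} (hV : V ∈ L) {e : ℝ}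
    (he : 0 < e) : ∃ (χ : ℂ → ℂ) (κ : ℝ), CD χ κ L ∧ χ '' ball 0 1 ⊆ ball V e ∧
      V ∈ χ '' ball 0 1 := by
  obtain ⟨m, χ, κ, h1, -, h3⟩ := COV L ‖V‖ e hcl htd he
  obtain ⟨k, hk⟩ := h3 V hV le_rfl
  refine ⟨χ k, κ k, (h1 k).1, ?_, hk⟩
  intro z hz
  rw [mem_ball, dist_eq_norm]
  exact (h1 k).2.1 z hz V hk

/-- The point of the limit set is in the smaller disc. -/
theorem CD.mem_rs {χ : ℂ → ℂ} (h : CD χ κ L) {V : ℂ} (hV : V ∈ L) (hm : V ∈ χ '' ball 0 1)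
    {t : ℝ} (ht : κ < t) : V ∈ UD.rs t χ '' ball 0 1 := by
  obtain ⟨ζ, hζ, rfl⟩ := hm
  rw [rs_image (h.k0.trans ht)]
  refine ⟨ζ, ?_, rfl⟩
  rw [mem_ball, dist_zero_right] at hζ ⊢
  by_contra hcon
  push Not at hcon
  exact h.free ζ (ht.trans_le hcon) hζ hV

/-- A disc of index one and the limit of the postcritical points. -/
theorem no_indU (T : TU C0 c0) (C : Cx n c x r ν A U σ) {ε R1 : ℝ} (hε : 0 < ε) (hε1 : ε < 1)
    (hR1 : 0 < R1) (hUD : UDA (PC n c) ε R1) (hcl : IsClosed (Lim U σ (PC n c)))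
    (htd : TD (Lim U σ (PC n c))) (hN : LN n c x U σ N)
    {C1 κ ρ0 : ℝ} (hC1 : 1 ≤ C1) (hκ : 0 < κ) (hρ0 : 0 < ρ0)
    (hE : ∀ ρ : ℝ, 0 < ρ → ρ ≤ ρ0 → ∃ (l : ℕ) (g : ℂ → ℂ), Br n c l (orb n c x l) (κ * ρ) g ∧
      g (orb n c x l) = x ∧ ‖orb n c x l‖ ≤ C1 * ρ ∧ ∀ i < l, ρ ≤ ‖orb n c x i‖)
    {φ0 : ℂ → ℂ} {k0 rr r0 : ℝ} (hr0 : 0 < r0) (h0 : CD φ0 k0 (Lim U σ (PC n c)))
    (hk : k0 < rr) (hrr : rr < 1) (hφr : φ0 '' ball 0 1 ⊆ ball 0 r0)
    (hidx : (∮ ζ in C(0, rr), N (φ0 ζ) * deriv φ0 ζ) = -(2 * Real.pi * I)) : False := by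
  have hn := C.h.hn
  have hC0 := T.K.one_le
  have hpi := Real.pi_pos
  obtain ⟨ε', hε', hatt⟩ := T.ATTC n c r C.h (4 * C1 / ε) (ε / 2) (by positivity) (by positivity)
    (by linarith)
  set Q : ℝ := r0 / ε' + 2 * r0 + 1 with hQ
  have hq : 0 < r0 / ε' := by positivity
  have hQ0 : 0 < Q := by positivity
  have hQ1 : r0 < ε' * Q := by
    have : ε' * Q = r0 + ε' * (2 * r0 + 1) := by rw [hQ]; field_simp; ring
    rw [this]
    have : 0 < ε' * (2 * r0 + 1) := by positivity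
    linarith
  have hQ2 : 2 * r0 ≤ Q := by rw [hQ]; linarith
  obtain ⟨l, Z0, d, M, G, hZ0, hd, hM, hZd, hG, hev⟩ := T.BASE n c x r ν A U σ C C1 κ ρ0 Q
    (by linarith) hκ hρ0 hQ0 hE (fun Z e he => TD.emp htd Z he)
  have hCQ : Q ≤ C1 * Q := by nlinarith
  set t : ℝ := 4 * C1 * Q with ht
  have ht0 : 0 < t := by positivity
  have hall : AG n c x U σ l := by
    apply all_good T.K T.LIFT T.UNIQ C _ hZ0 hd hM hG
    rw [compl_eq_univ_sdiff]
    exact T.CONN2 _ hcl htd univ isOpen_univ isPreconnected_univ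
  -- the discs
  have hex : ∀ᶠ j in (U : Filter ℕ), ∃ φ : ℂ → ℂ, Univ φ 0 1 ∧ φ 0 = 0 ∧
      ball 0 (σ j * t) ⊆ φ '' ball 0 1 ∧ φ '' ball 0 1 ⊆ ball 0 (σ j * t / ε) ∧
        ∀ ζ : ℂ, 1 - ε < ‖ζ‖ → ‖ζ‖ < 1 → φ ζ ∉ PC n c := by
    filter_upwards [C.ev (s0 := R1 / t) (by positivity)] with j hj
    rw [le_div_iff₀ ht0] at hj
    exact hUD 0 (σ j * t) (mul_pos (C.pos j) ht0) hj
  obtain ⟨φ, hφ⟩ := hex.choice
  obtain ⟨g, hg, hg0, hg1, hg2, hg3, hg4, hg5⟩ := T.LIMD U σ (PC n c) ε t 0 φ hε hε1 ht0 C.pos (by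
    filter_upwards [hφ] with j hj
    rw [mul_zero]
    exact hj)
  set ρ1 : ℝ := 1 - ε / 2 with hρ1
  have hρ10 : 0 < ρ1 := by rw [hρ1]; linarith
  have hρ11 : ρ1 < 1 := by rw [hρ1]; linarith
  set V : Set ℂ := g '' ball 0 ρ1 with hV
  have hVo : IsOpen V := img_open hg hρ11.le
  have hVc : IsPreconnected V := img_conn hg hρ11.le
  have hVt : ball (0 : ℂ) (ρ1 * t) ⊆ V := by
    intro w hw
    have hρt : ρ1 * t ≤ t := by nlinarith
    obtain ⟨ζ, -, h2, h3⟩ := Pool.Agent.J4H8.UD.inv_small hg hg0 ht0 hg1 (ball_subset_ball hρt hw)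
    refine ⟨ζ, ?_, h3⟩
    rw [mem_ball, dist_zero_right] at hw ⊢
    rw [sub_zero] at h2
    refine lt_of_le_of_lt h2 ?_
    rw [div_lt_iff₀ ht0]
    exact hw
  have hρ1t : t / 2 ≤ ρ1 * t := by
    have : 1 / 2 ≤ ρ1 := by rw [hρ1]; linarith
    nlinarith
  have hZ0V : ball Z0 d ⊆ V := by
    refine Subset.trans ?_ hVt
    apply ball_subset_ball'
    rw [dist_zero_right]
    have : 2 * C1 * Q = t / 2 := by rw [ht]; ring
    linarith
  have hφ0V : φ0 '' ball 0 1 ⊆ V := by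
    refine hφr.trans (Subset.trans (ball_subset_ball ?_) hVt)
    have : r0 ≤ t / 2 := by rw [ht]; nlinarith
    linarith
  -- the parameters of the base points
  have hzl : ∀ᶠ j in (U : Filter ℕ), ∃ ζ ∈ ball (0 : ℂ) 1, ‖ζ‖ ≤ 1 / 4 ∧
      φ j ζ = orb n c x (l j) := by
    filter_upwards [hφ, hev] with j h1 h2
    have hs := C.pos j
    have h3 : ‖orb n c x (l j)‖ ≤ σ j * t / 4 := h2.1.trans (le_of_eq (by rw [ht]; ring))
    have hst : 0 < σ j * t := mul_pos hs ht0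
    obtain ⟨ζ, q1, q2, q3⟩ := Pool.Agent.J4H8.UD.inv_small h1.1 h1.2.1 hst h1.2.2.1
      (u := orb n c x (l j)) (by
        rw [mem_ball, dist_zero_right]
        linarith)
    refine ⟨ζ, q1, q2.trans ?_, q3⟩
    rw [sub_zero, div_le_iff₀ hst]
    linarith
  obtain ⟨ζ0, hζ0⟩ := hzl.choice
  -- the discs do not lift
  obtain ⟨k', hk1, hk2⟩ := exists_between hk
  obtain ⟨t', ht1, ht2⟩ := exists_between hrr
  have hk0 := h0.k0
  have ht'0 : 0 < t' := by linarith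
  have hno : ∀ᶠ j in (U : Filter ℕ), ¬ ∃ h, Lf n c (l j) (φ j) h ∧ h (ζ0 j) = x := by
    rw [Ultrafilter.eventually_not]
    intro hcon
    have hfd := h0.fd C.pos hk1 (hk2.trans ht1) ht2
    have hrt : r0 < t := by rw [ht]; nlinarith
    have h1 := no_full T.toTC C hN hfd (κ := rr / t') (by gcongr) (by rw [div_lt_one ht'0]; exact ht1)
      hr0 hrt ((rs_sub ht'0 ht2.le).trans hφr) (l := l) (B := C1 * Q) (by rw [ht]; nlinarith)
      (hev.mono fun j hj => hj.1.trans (le_of_eq (by ring))) (by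
        filter_upwards [hcon, hφ, hζ0] with j h1 h2 h3
        obtain ⟨h, h4, h5⟩ := h1
        refine ⟨_, h4.br h2.1 h2.2.2.1, ?_⟩
        rw [← h3.2.2, Pool.Agent.Helper202.Univ.invFunOn_left h2.1.2 h3.1, h5])
    rw [rs_int ht'0, hidx] at h1
    have h2 : (2 * Real.pi * I : ℂ) ≠ 0 := Complex.two_pi_I_ne_zero
    exact h2 (neg_eq_zero.mp h1)
  have key : ∀ᶠ j in (U : Filter ℕ), ∃ p : ℕ × (ℂ → ℂ) × ℂ, p.1 < l j ∧
      Lf n c p.1 (φ j) p.2.1 ∧ p.2.1 (ζ0 j) = orb n c x (l j - p.1) ∧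
      p.2.2 ∈ ball (0 : ℂ) 1 ∧ p.2.1 p.2.2 = c := by
    filter_upwards [hno, hφ, hζ0] with j h1 h2 h3
    obtain ⟨i, h, v, q1, q2, q3, q4, q5⟩ := passageC hn h2.1 h3.1 h3.2.2 h1
    exact ⟨⟨i, h, v⟩, q1, q2, q3, q4, q5⟩
  obtain ⟨p, hp⟩ := key.choice
  set i : ℕ → ℕ := fun j => (p j).1 with hi
  set h : ℕ → ℂ → ℂ := fun j => (p j).2.1 with hh
  set v : ℕ → ℂ := fun j => (p j).2.2 with hv
  have hp' : ∀ᶠ j in (U : Filter ℕ), i j < l j ∧ Lf n c (i j) (φ j) (h j) ∧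
      h j (ζ0 j) = orb n c x (l j - i j) ∧ v j ∈ ball (0 : ℂ) 1 ∧ h j (v j) = c := hp
  have hvPC : ∀ᶠ j in (U : Filter ℕ), φ j (v j) ∈ PC n c := by
    filter_upwards [hp'] with j hj
    exact Pool.Agent.J4H8.UD.lf_crit hn hj.2.1 hj.2.2.2.1 hj.2.2.2.2
  have hvb : ∀ᶠ j in (U : Filter ℕ), ‖v j‖ ≤ 1 - ε := by
    filter_upwards [hp', hφ, hvPC] with j h1 h2 h3
    by_contra hcon
    push Not at hcon
    have h4 := h1.2.2.2.1
    rw [mem_ball, dist_zero_right] at h4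
    exact h2.2.2.2.2 _ hcon h4 h3
  obtain ⟨w, hw, hwl⟩ := lim_pt T.MONT C.pos (φ := φ) (g := g) (B := t / ε) (by
      filter_upwards [hφ] with j hj
      refine ⟨hj.1, ?_⟩
      rw [← mul_div_assoc]
      exact hj.2.2.2.1) hg4 (by linarith : 1 - ε < 1) hvb
  set W : ℂ := g w with hW
  have hWV : W ∈ V := by
    refine ⟨w, ?_, rfl⟩
    rw [mem_ball, dist_zero_right]
    rw [hρ1]
    linarith
  have hVe : ∀ e : ℝ, 0 < e → ∀ᶠ j in (U : Filter ℕ), ‖φ j (v j) - σ j * W‖ < σ j * e := by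
    intro e he
    filter_upwards [hwl.eventually (Metric.ball_mem_nhds W he)] with j hj
    have hs := C.pos j
    have hs' : (σ j : ℂ) ≠ 0 := by exact_mod_cast hs.ne'
    rw [dist_eq_norm] at hj
    have : φ j (v j) - σ j * W = σ j * (φ j (v j) / σ j - W) := by field_simp
    rw [this, norm_mul, Complex.norm_real, Real.norm_of_nonneg hs.le]
    gcongr
  have hWL : W ∈ Lim U σ (PC n c) := by
    intro e he
    filter_upwards [hVe e he, hvPC] with j h1 h2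
    exact ⟨_, h2, h1⟩
  have hWr : ‖W‖ < r0 := by
    by_contra hcon
    push Not at hcon
    have hWn : W ∉ φ0 '' closedBall 0 t' := by
      rintro ⟨ζ, hζ, hζW⟩
      have := hφr ⟨ζ, closedBall_subset_ball ht2 hζ, rfl⟩
      rw [hζW, mem_ball, dist_zero_right] at this
      linarith
    have hcomp : IsClosed (φ0 '' closedBall 0 t') :=
      ((isCompact_closedBall (0 : ℂ) t').image_of_continuousOn
        (h0.u.1.continuousOn.mono (closedBall_subset_ball ht2))).isClosed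
    obtain ⟨e, he, hsube⟩ : ∃ e : ℝ, 0 < e ∧ ball W e ⊆ V ∩ (φ0 '' closedBall 0 t')ᶜ := by
      apply Metric.mem_nhds_iff.mp
      exact inter_mem (hVo.mem_nhds hWV) (hcomp.isOpen_compl.mem_nhds hWn)
    obtain ⟨χ, κ2, hχ, hχ1, hχ2⟩ := small_disc T.COV hcl htd hWL he
    obtain ⟨a1, ha1, ha1'⟩ := exists_between hχ.k1
    obtain ⟨a2, ha2, ha2'⟩ := exists_between ha1'
    obtain ⟨a3, ha3, ha3'⟩ := exists_between ha2'
    have hκ20 := hχ.k0
    have ha30 : 0 < a3 := by linarith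
    have ha20 : 0 < a2 := by linarith
    have hfd := hχ.fd C.pos ha1 (ha2.trans ha3) ha3'
    have hpt : UD.rs a3 χ ((a2 / a3 : ℝ) : ℂ) = χ a2 := by
      have h' : (a3 : ℂ) ≠ 0 := by exact_mod_cast ha30.ne'
      simp only [UD.rs]
      push_cast
      rw [mul_div_cancel₀ _ h']
    have hχV : χ '' ball 0 1 ⊆ V := fun z hz => (hsube (hχ1 hz)).1
    have hna2 : ‖(a2 : ℂ)‖ = a2 := by rw [Complex.norm_real, Real.norm_of_nonneg (by linarith)]
    have ha2b : (a2 : ℂ) ∈ ball (0 : ℂ) 1 := by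
      rw [mem_ball, dist_zero_right, hna2]; linarith
    have hZ1V : χ a2 ∈ V := hχV ⟨_, ha2b, rfl⟩
    have hZ1L : χ a2 ∉ Lim U σ (PC n c) := hχ.free _ (by rw [hna2]; linarith)
      (by rw [hna2]; linarith)
    set hf : ℕ → ℂ → ℂ := fun j w => h j (Function.invFunOn (φ j) (ball 0 1) w) with hhf
    have hbr : ∀ᶠ j in (U : Filter ℕ), i j < l j ∧ ∀ (Z : ℂ) (d : ℝ), 0 < d → ball Z d ⊆ V →
        Br n c (i j) (σ j * Z) (σ j * d) (hf j) := by
      filter_upwards [hp', hφ, hg5 ρ1 hρ10 hρ11] with j g1 g2 g3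
      refine ⟨g1.1, ?_⟩
      intro Z d' hd' hsub
      apply g1.2.1.br g2.1
      intro y hy
      have hs := C.pos j
      have hs' : (σ j : ℂ) ≠ 0 := by exact_mod_cast hs.ne'
      have hy2 : y / σ j ∈ ball Z d' := by
        rw [mem_ball, dist_eq_norm] at hy ⊢
        have : y / σ j - Z = (y - σ j * Z) / σ j := by field_simp
        rw [this, norm_div, Complex.norm_real, Real.norm_of_nonneg hs.le, div_lt_iff₀ hs]
        linarith
      obtain ⟨ζ, hζ, hζy⟩ := hsub hy2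
      rw [mem_ball, dist_zero_right] at hζ
      obtain ⟨ξ, hξ1, hξ2⟩ := g3 ζ hζ.le
      refine ⟨ξ, ?_, ?_⟩
      · rw [mem_ball, dist_zero_right]; linarith
      · rw [hξ2, hζy, mul_div_cancel₀ _ hs']
    have htr0 : ∀ᶠ j in (U : Filter ℕ), orb n c (G j Z0) (l j - i j) = hf j (σ j * Z0) := by
      filter_upwards [hG, hev, hp', hbr, hφ, hζ0] with j g1 g2 g3 g4 g5 g6
      have hs := C.pos j
      have hs' : (σ j : ℂ) ≠ 0 := by exact_mod_cast hs.ne'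
      have t1 := (g1.br hs).shift (i := l j - i j) (Nat.sub_le _ _)
      rw [Nat.sub_sub_self g3.1.le] at t1
      have t2 := g4.2 Z0 d hd hZ0V
      have hw0 : orb n c x (l j) ∈ ball ((σ j : ℂ) * Z0) (σ j * d) := by
        have := g2.2.2.1
        rw [mem_ball, dist_eq_norm] at this ⊢
        have e : orb n c x (l j) - σ j * Z0 = σ j * (orb n c x (l j) / σ j - Z0) := by
          field_simp
        rw [e, norm_mul, Complex.norm_real, Real.norm_of_nonneg hs.le]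
        gcongr
      have hfz : hf j (orb n c x (l j)) = orb n c x (l j - i j) := by
        simp only [hhf]
        rw [← g6.2.2, Pool.Agent.Helper202.Univ.invFunOn_left g5.1.2 g6.1, g3.2.2.1]
      have t3 := t1.unique hn t2 hw0 (by rw [g2.2.2.2, hfz]) (σ j * Z0)
        (mem_ball_self (by positivity))
      rw [mul_div_cancel_left₀ _ hs'] at t3
      exact t3
    obtain ⟨d2, M2, G2, hd2, hM2, hG2, htr⟩ := T.TRKC n c x r ν A U σ C V l i hf hVo
      (T.CONN2 _ hcl htd V hVo hVc) hbr Z0 d M G (hZ0V (mem_ball_self hd)) hZ0 hd hM hG htr0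
      (χ a2) hZ1V hZ1L
    have hWrs : W ∈ UD.rs a3 χ '' ball 0 1 := hχ.mem_rs hWL hχ2 (ha1.trans (ha2.trans ha3))
    have hopen : IsOpen (UD.rs a3 χ '' ball 0 1) := img_open (rs_univ ha30 ha3'.le hχ.u) le_rfl
    have hnf : ∀ᶠ j in (U : Filter ℕ), ¬ FullC n c (σ j) (l j) (UD.rs a3 χ) (a2 / a3 : ℝ)
        (G2 j (χ a2)) := by
      filter_upwards [hp', htr, hwl.eventually (hopen.mem_nhds hWrs), hbr, hφ]
        with j g1 g2 g3 g4 g5
      refine T.NFC n c (σ j) V (l j) (i j) (hf j) (UD.rs a3 χ) (a2 / a3) (G2 j (χ a2)) (φ j (v j))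
        hn (C.pos j) hVo (rs_univ ha30 ha3'.le hχ.u) (by positivity)
        (by rw [div_lt_one ha30]; exact ha3) g1.1 g4.2 ((rs_sub ha30 ha3'.le).trans hχV) ?_ ?_ g3
      · rw [hpt]; exact g2
      · simp only [hhf]
        rw [Pool.Agent.Helper202.Univ.invFunOn_left g5.1.2 g1.2.2.2.1, g1.2.2.2.2]
    have hcirc : ∃ i2 : ℝ, 0 < i2 ∧ (∮ ζ in C(0, a2), N (χ ζ) * deriv χ ζ) =
        -(2 * Real.pi * I * i2) := by
      rw [← rs_int ha30 N χ a2]
      rw [← hpt] at hG2 hnf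
      rcases circle T.toTC C hN hfd (κ := a2 / a3) (by gcongr) (by rw [div_lt_one ha30]; exact ha3)
        hM2 hd2 hG2 with ⟨h, -⟩ | ⟨-, h⟩
      · exact absurd h (by
          intro h2
          obtain ⟨j, b1, b2⟩ := (hnf.and h2).exists
          exact b1 b2)
      · rcases h with h | ⟨-, -, h⟩
        · exact ⟨1, one_pos, by rw [h]; simp⟩
        · exact ⟨1 / 2, by norm_num, by rw [h]; push_cast; ring⟩
    obtain ⟨i2, hi2, he2⟩ := hcirc
    have hgCD : CD g (1 - ε) (Lim U σ (PC n c)) := ⟨hg, by linarith, by linarith, hg3⟩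
    have hVg : V ⊆ g '' ball 0 1 := image_mono (ball_subset_ball hρ11.le)
    have := index_sum T C hcl htd hN hall hgCD (h0.rs (hk.trans ht1) ht2.le) hχ
      (ρ0 := ρ1) (by rw [hρ1]; linarith) hρ11 (ρ1 := rr / t') (by gcongr)
      (by rw [div_lt_one ht'0]; exact ht1) (ρ2 := a2) (by linarith) (by linarith) hg2
      (((rs_sub ht'0 ht2.le).trans hφ0V).trans hVg) (hχV.trans hVg) (by
        rw [rs_image ht'0]
        refine Disjoint.mono (image_mono ball_subset_closedBall) (Subset.trans hχ1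
          (fun z hz => (hsube hz).2)) ?_
        exact disjoint_compl_right)
      (i1 := 1) (i2 := i2) (by rw [rs_int ht'0, hidx]; simp) he2
    linarith
  -- the critical value is too close to the critical point
  obtain ⟨j, h1, h2, h3, h4, h5, h6⟩ := (hp'.and (hev.and (hvb.and ((hVe (ε' * Q - r0)
    (by linarith)).and (hφ.and hζ0))))).exists
  have hs := C.pos j
  have hlt : ‖φ j (v j)‖ < ε' * (Q * σ j) := by
    have e : φ j (v j) = (φ j (v j) - σ j * W) + σ j * W := by ring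
    have e2 : ‖φ j (v j)‖ ≤ ‖φ j (v j) - σ j * W‖ + σ j * ‖W‖ := by
      have := norm_add_le (φ j (v j) - σ j * W) (σ j * W)
      rw [← e, norm_mul, Complex.norm_real, Real.norm_of_nonneg hs.le] at this
      exact this
    have e3 : σ j * ‖W‖ ≤ σ j * r0 := by gcongr
    nlinarith
  have hge := hatt (Q * σ j) (i j) (φ j) (h j) (ζ0 j) (v j) (by positivity) h5.1 h5.2.1
    (by
      refine Subset.trans (ball_subset_ball ?_) h5.2.2.1
      calc Q * σ j = σ j * Q := by ring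
        _ ≤ σ j * t := by gcongr; rw [ht]; nlinarith)
    (by
      refine h5.2.2.2.1.trans (ball_subset_ball (le_of_eq ?_))
      rw [ht]
      ring) h1.2.1
    (by linarith [h6.2.1])
    (by linarith) h1.2.2.2.2
    (by
      rw [h1.2.2.1]
      obtain ⟨k, hk⟩ : ∃ k, l j - i j = k + 1 := ⟨l j - i j - 1, by have := h1.1; omega⟩
      rw [hk, norm_orb_succ_sub]
      have := h2.2.1 k (by omega)
      gcongr)
  linarith

end Pool.Agent.J4H16.UD
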