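import Mathlib
import Pool.Agent.J4H16.UD.A2

/-!
# Project UD, assembly, part three
-/

set_option autoImplicit false
open Set Filter Topology Metric Complex MeasureTheory
open scoped ComplexConjugate

namespace Pool.Agent.J4H16.UD

open Pool.Agent.J4H16 Pool.Agent.W746.LD Pool.Agent.J4H16.AS

variable {n : ℕ} {c : ℂ} {C0 c0 : ℝ}

/-- Density of hyperbolicity at parameters with uniformly disconnected postcritical sets. -/
theorem ud_main (T : TU C0 c0) (hn : 2 ≤ n) (hc : c ∈ N62a1eb23.multibrotSet n) {ε R1 : ℝ}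
    (hε : 0 < ε) (hε1 : ε < 1) (hR1 : 0 < R1) (hUD : UDA (PC n c) ε R1) :
    c ∈ closure {c' : ℂ | ∃ m z, N62a1eb23.IsAttractingCycle (fun z => z ^ n + c') m z} := by
  by_contra hcl
  obtain ⟨r, h⟩ := exists_Q hn hc hcl
  have hdense := h.dense
  obtain ⟨ν, A, hI⟩ := h.exists_inv hdense
  obtain ⟨x, hx⟩ := hI.exists_good hn
  obtain ⟨θ, hθ, hNC⟩ := T.NCZC n c r ν A x ε R1 h hdense hI hx hε hε1 hR1 hUD
  obtain ⟨C1', κ, ρ0, hC1', hκ, hρ0, hE'⟩ :=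
    T.ENTRYC n c r ν A x ε R1 h hdense hI hx hε hε1 hR1 hUD
  set C1 : ℝ := max C1' 1 with hC1d
  have hC1 : 1 ≤ C1 := le_max_right _ _
  have hE : ∀ ρ : ℝ, 0 < ρ → ρ ≤ ρ0 → ∃ (l : ℕ) (g : ℂ → ℂ), Br n c l (orb n c x l) (κ * ρ) g ∧
      g (orb n c x l) = x ∧ ‖orb n c x l‖ ≤ C1 * ρ ∧ ∀ i < l, ρ ≤ ‖orb n c x i‖ := by
    intro ρ h1 h2
    obtain ⟨l, g, q1, q2, q3, q4⟩ := hE' ρ h1 h2
    exact ⟨l, g, q1, q2, q3.trans (by gcongr; exact le_max_left _ _), q4⟩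
  choose σ hσ using fun j : ℕ => hNC (1 / ((j : ℝ) + 1)) (by positivity)
  obtain ⟨U, hU⟩ : ∃ U : Ultrafilter ℕ, (U : Filter ℕ) ≤ atTop := ⟨hyperfilter ℕ, by
    rw [← Nat.cofinite_eq_atTop]
    exact Filter.hyperfilter_le_cofinite⟩
  have hlim : Tendsto σ atTop (𝓝 0) := by
    apply squeeze_zero (fun j => (hσ j).1.le) (fun j => (hσ j).2.1)
    exact tendsto_one_div_add_atTop_nhds_zero_nat
  have C : Cx n c x r ν A U σ := ⟨h, hdense, hI, hx, fun j => (hσ j).1, hlim.mono_left hU⟩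
  obtain ⟨hLc, htd⟩ := T.LIMU U σ (PC n c) ε R1 hε hε1 hR1 hUD C.pos C.lim
  obtain ⟨l, Z0, d, M, G, hZ0, hd, hM, -, hG, -⟩ := T.BASE n c x r ν A U σ C C1 κ ρ0 1
    (by linarith) hκ hρ0 one_pos hE (fun Z e he => TD.emp htd Z he)
  have hconn : IsPreconnected (Lim U σ (PC n c))ᶜ := by
    rw [compl_eq_univ_sdiff]
    exact T.CONN2 _ hLc htd univ isOpen_univ isPreconnected_univ
  have hall : AG n c x U σ l := all_good T.K T.LIFT T.UNIQ C hconn hZ0 hd hM hG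
  obtain ⟨N, hN, -⟩ := exists_LN T.K T.LIFT T.UNIQ T.SM T.MONT C hconn hZ0 hd hM hG
  obtain ⟨R0, hR0, hfnc⟩ := T.FNCC n c r ν A x h hdense hI hx θ hθ
  obtain ⟨φ, κ0, hφ, hodd, hb1, hb2⟩ := T.SYMD (Lim U σ (PC n c)) (2 * R0) hLc htd (by linarith)
  have hφ0 : φ 0 = 0 := by
    have h1 := hodd 0 (mem_ball_self one_pos)
    rw [neg_zero] at h1
    exact self_eq_neg.mp h1
  obtain ⟨t, ht, ht1⟩ := exists_between (max_lt hφ.k1 (by norm_num : (1 / 2 : ℝ) < 1))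
  have ht2 : κ0 < t := (le_max_left _ _).trans_lt ht
  have ht3 : 1 / 2 < t := (le_max_right _ _).trans_lt ht
  have ht0 : 0 < t := by linarith
  obtain ⟨ρ, h1, h2⟩ := exists_between ht2
  obtain ⟨κ', h3, h4⟩ := exists_between h1
  have hκ00 := hφ.k0
  have hρ0' : 0 < ρ := by linarith
  have hfd := hφ.fd C.pos h3 (h4.trans h2) ht1
  have hρt : ρ / t < 1 := by rw [div_lt_one ht0]; exact h2
  have hρt0 : 0 < ρ / t := by positivity
  have hnρ : ‖((ρ / t : ℝ) : ℂ)‖ = ρ / t := by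
    rw [Complex.norm_real, Real.norm_of_nonneg hρt0.le]
  have hcd : CD (UD.rs t φ) (κ0 / t) (Lim U σ (PC n c)) := hφ.rs ht2 ht1.le
  have hκt : κ0 / t < ρ / t := by gcongr
  have hZ : UD.rs t φ ((ρ / t : ℝ) : ℂ) ∉ Lim U σ (PC n c) :=
    hcd.free _ (by rw [hnρ]; exact hκt) (by rw [hnρ]; exact hρt)
  obtain ⟨d', M', G', hd', hM', hG'⟩ := hall _ hZ
  have hball : ball 0 R0 ⊆ UD.rs t φ '' ball 0 1 := by
    rw [rs_image ht0]
    intro w hw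
    have hw' : w ∈ ball (0 : ℂ) (2 * R0) := ball_subset_ball (by linarith) hw
    obtain ⟨ζ, -, q2, q3⟩ := Pool.Agent.J4H8.UD.inv_small hφ.u hφ0 (by linarith) hb1 hw'
    refine ⟨ζ, ?_, q3⟩
    rw [mem_ball, dist_zero_right] at hw ⊢
    rw [sub_zero] at q2
    refine lt_of_le_of_lt q2 (lt_trans ?_ ht3)
    rw [div_lt_iff₀ (by linarith)]
    linarith
  have hball2 : UD.rs t φ '' ball 0 1 ⊆ ball 0 (2 * R0 + 1) := (rs_sub ht0 ht1.le).trans hb2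
  rcases circle T.toTC C hN hfd (κ := ρ / t) (by gcongr) hρt hM' hd' hG' with
    ⟨hfull, -⟩ | ⟨-, h5⟩
  · obtain ⟨s0, hs0', hfn⟩ := hfnc (UD.rs t φ) (ρ / t) (2 * R0 + 1) d' M' (rs_univ ht0 ht1.le hφ.u)
      hρt0 hρt hball hball2 hd' hM'
    obtain ⟨j, j1, j2, j3⟩ := (hfull.and (hG'.and (C.ev hs0'))).exists
    exact (hσ j).2.2 (hfn (σ j) (l j) (G' j) (C.pos j) j3 j2 j1)
  · rcases h5 with h5 | ⟨-, h5, -⟩
    · exact no_indU T C hε hε1 hR1 hUD hLc htd hN hC1 hκ hρ0 hE (r0 := 2 * R0 + 1) (by linarith)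
        hcd hκt hρt hball2 h5
    · apply h5
      intro ζ hζ
      simp only [UD.rs]
      rw [mul_neg]
      exact hodd _ (ball_subset_ball ht1.le (rs_mem ht0 hζ))

end Pool.Agent.J4H16.UD
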