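import Mathlib
import Pool.Agent.J4H16.UD.A3
import Pool.Agent.J4H57.AS.All
import Pool.Agent.J4H57.UD.Add
import Pool.Agent.J4H73.AS.Lift
import Pool.Agent.J4H73.AS.Mont
import Pool.Agent.J4H79.AS.Base
import Pool.Agent.J4H79.AS.Sm
import Pool.Agent.J4H79.UD.Rotc
import Pool.Agent.J4H79.UD.Rot2c
import Pool.Agent.J4H79.UD.Fncc
import Pool.Agent.J4H79.UD.Trkc
import Pool.Agent.J4H8.UD.Entry
import Pool.Agent.J4H8.UD.Limd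
import Pool.Agent.J4H8.UD.Limu
import Pool.Agent.J4H8.UD.Udp
import Pool.Agent.J4H56.UD.Nczc
import Pool.Agent.J4H56.UD.Attc
import Pool.Agent.J4H71.UD.Cov
import Pool.Agent.J4H71.UD.Symd
import Pool.Agent.J4H38.UD.Sup
import Pool.Agent.J4H38.UD.Conn
import Pool.Agent.J4H42.UD.Udc

/-!
# All tools
-/

set_option autoImplicit false

namespace Pool.Agent.J4H16.UD

theorem exists_TU : ∃ C0 c0 : ℝ, TU C0 c0 := by
  obtain ⟨C0, c0, K⟩ := Pool.Agent.W746.LD.exists_KC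
  refine ⟨C0, c0, ⟨⟨K, ?_, ?_, ?_, ?_, ?_, ?_, ?_, ?_⟩, ?_, ?_, ?_, ?_, ?_, ?_, ?_, ?_, ?_, ?_, ?_,
    ?_, ?_⟩⟩
  · exact Pool.Agent.J4H73.AS.t_LIFT
  · exact Pool.Agent.J4H73.AS.t_UNIQ
  · exact Pool.Agent.J4H73.AS.t_MONT
  · exact Pool.Agent.J4H79.AS.t_SM
  · exact Pool.Agent.J4H79.AS.t_SYM'
  · exact Pool.Agent.J4H57.AS.t_HOPF
  · exact Pool.Agent.J4H79.UD.t_ROTC
  · exact Pool.Agent.J4H79.UD.t_ROT2C
  · exact Pool.Agent.J4H38.UD.t_SUP Pool.Agent.J4H57.UD.t_ADD Pool.Agent.J4H71.UD.t_COV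
  · exact Pool.Agent.J4H38.UD.t_CONN2 Pool.Agent.J4H57.UD.t_ADD Pool.Agent.J4H71.UD.t_COV
  · exact Pool.Agent.J4H71.UD.t_SYMD
  · exact Pool.Agent.J4H71.UD.t_COV
  · exact Pool.Agent.J4H8.UD.t_LIMU
  · exact Pool.Agent.J4H8.UD.t_LIMD
  · exact Pool.Agent.J4H8.UD.t_ENTRYC
  · exact Pool.Agent.J4H56.UD.t_NCZC
  · exact Pool.Agent.J4H56.UD.t_ATTC
  · exact Pool.Agent.J4H79.UD.t_TRKC
  · exact Pool.Agent.J4H79.UD.t_NFC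
  · exact Pool.Agent.J4H79.UD.t_FNCC
  · exact Pool.Agent.J4H79.AS.t_BASE2

end Pool.Agent.J4H16.UD
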